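import Pool.Agent.H25.Hx2.ExistD
import Pool.Agent.H40.Hx.TComp

/-!
# The operator of the damped wave equation is maximal monotone

`IsA a α Ω` (see `Pool.Agent.H40.Hx.TDefs`) is the graph of a monotone operator of the energy space
(for the energy inner product), and `I + h A` is onto the energy space for every `h > 0`.
-/

set_option autoImplicit false

open MeasureTheory Filter Topology Metric Set
open scoped ContDiff RealInnerProductSpace

namespace Pool.Agent.H25.Hx2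

open Pool.Agent.H25
open Pool.Agent.H25.HX (Tst g)
open Pool.Agent.H40.Hx (E L2 L2v St IsTest H10 L2on EnergySpace energy IsA IsB moll)

variable {N : ℕ} {Ω : Set (E N)}

theorem mem_H10 (hΩ : IsOpen Ω) {x : L2 N × L2v N}
    (h : HX.H10 Ω (x.1 : E N → ℝ) (x.2 : E N → E N)) : x ∈ H10 Ω := by
  rw [H10, Metric.mem_closure_iff]
  intro ε hε
  obtain ⟨φ, hφ, h1, h2⟩ := h.2.2 ((ε / 4) ^ 2) (by positivity)
  obtain ⟨ψ, hψ, -, h3, h4⟩ := moll hΩ hφ (δ := (ε / 4) ^ 2) (by positivity)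
  have hψT : Tst Ω ψ := ⟨hψ.1.of_le (by exact_mod_cast le_top), hψ.2.1, hψ.2.2⟩
  have m1 := HX.Tst.mem hφ
  have m2 := HX.Tst.mem hψT
  have m3 := HX.Tst.memG hφ
  have m4 := HX.Tst.memG hψT
  refine ⟨(m2.toLp ψ, m4.toLp _), ⟨ψ, hψ, m2.coeFn_toLp, m4.coeFn_toLp⟩, ?_⟩
  have a1 : ‖x.1 - m1.toLp φ‖ ≤ ε / 4 := by
    have e1 := HX.toLp_norm_sq ((Lp.memLp x.1).sub m1)
    rw [MemLp.toLp_sub (Lp.memLp x.1) m1, Lp.toLp_coeFn x.1 (Lp.memLp x.1)] at e1
    have e2 : ∫ t, ‖((x.1 : E N → ℝ) - φ) t‖ ^ 2 = ∫ t, ((x.1 : E N → ℝ) t - φ t) ^ 2 :=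
      integral_congr_ae (ae_of_all _ fun t => by simp [Real.norm_eq_abs, sq_abs])
    rw [e2] at e1
    exact le_of_sq_le_sq (by rw [e1]; exact h1) (by positivity)
  have a2 : ‖m1.toLp φ - m2.toLp ψ‖ ≤ ε / 4 := by
    have e1 := HX.toLp_norm_sq (m1.sub m2)
    rw [MemLp.toLp_sub m1 m2] at e1
    have e2 : ∫ t, ‖(φ - ψ) t‖ ^ 2 = ∫ t, (φ t - ψ t) ^ 2 :=
      integral_congr_ae (ae_of_all _ fun t => by simp [Real.norm_eq_abs, sq_abs])
    rw [e2] at e1
    exact le_of_sq_le_sq (by rw [e1]; exact h3) (by positivity)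
  have a3 : ‖x.2 - m3.toLp _‖ ≤ ε / 4 := by
    have e1 := HX.toLp_norm_sq ((Lp.memLp x.2).sub m3)
    rw [MemLp.toLp_sub (Lp.memLp x.2) m3, Lp.toLp_coeFn x.2 (Lp.memLp x.2)] at e1
    exact le_of_sq_le_sq (by rw [e1]; exact h2) (by positivity)
  have a4 : ‖m3.toLp _ - m4.toLp _‖ ≤ ε / 4 := by
    have e1 := HX.toLp_norm_sq (m3.sub m4)
    rw [MemLp.toLp_sub m3 m4] at e1
    exact le_of_sq_le_sq (by rw [e1]; exact h4) (by positivity)
  rw [dist_eq_norm, Prod.norm_def]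
  refine max_lt ?_ ?_
  · have e1 : (x - (m2.toLp ψ, m4.toLp _)).1 = (x.1 - m1.toLp φ) + (m1.toLp φ - m2.toLp ψ) := by
      simp
    rw [e1]
    have := norm_add_le (x.1 - m1.toLp φ) (m1.toLp φ - m2.toLp ψ)
    linarith
  · have e1 : (x - (m2.toLp ψ, m4.toLp _)).2 = (x.2 - m3.toLp _) + (m3.toLp _ - m4.toLp _) := by
      simp
    rw [e1]
    have := norm_add_le (x.2 - m3.toLp (gradient φ)) (m3.toLp (gradient φ) - m4.toLp (gradient ψ))
    linarith

/-- `A` is monotone for the energy inner product -/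
theorem isA_mono {a α : ℝ} (ha : 0 ≤ a) (hα : 0 < α) (hΩ : IsOpen Ω)
    (hb : Bornology.IsBounded Ω) {U V U' V' : St N} (h : IsA a α Ω U V) (h' : IsA a α Ω U' V') :
    0 ≤ ⟪V.2 - V'.2, U.2 - U'.2⟫ + ⟪V.1.2 - V'.1.2, U.1.2 - U'.1.2⟫ :=
  (h.toB hα hΩ hb).mono ha hα (h'.toB hα hΩ hb)

/-- the range condition: `I + h A` is onto the energy space -/
theorem isA_range {a α h : ℝ} (ha : 0 < a) (hα : 0 < α) (hΩ : IsOpen Ω) (hh : 0 < h) {F : St N}
    (hF : F ∈ EnergySpace Ω) : ∃ U V : St N, IsA a α Ω U V ∧ U + h • V = F := by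
  have hp : 2 < α + 2 := by linarith
  have hF1 := Pool.Agent.H40.Hx.H10.toHX hF.1
  have hR := Lp.memLp F.2
  have hK : MemLp (fun x => (-h) • (F.1.2 : E N → E N) x) 2 volume :=
    (Lp.memLp F.1.2).const_smul (-h)
  obtain ⟨v, V, hv, hEq⟩ := HX.one_step_gen (Ω := Ω) hp (mul_pos hh ha) hh hR hK
  have mv := hv.1.1
  have mV := hv.1.2.1
  set vL : L2 N := mv.toLp v with hvL
  set VL : L2v N := mV.toLp V with hVL
  have ev : (vL : E N → ℝ) =ᵐ[volume] v := mv.coeFn_toLp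
  have eV : (VL : E N → E N) =ᵐ[volume] V := mV.coeFn_toLp
  have hvH : HX.H10 Ω (vL : E N → ℝ) (VL : E N → E N) :=
    hv.1.congr (ev.mono fun x hx => hx.symm) (eV.mono fun x hx => hx.symm)
  refine ⟨(F.1 + h • (vL, VL), vL), (-(vL, VL), h⁻¹ • (F.2 - vL)), ⟨?_, ?_, rfl, ?_, ?_, ?_⟩, ?_⟩
  · refine mem_H10 hΩ ?_
    refine (hF1.add (hvH.smul h)).congr ?_ ?_
    · filter_upwards [Lp.coeFn_add F.1.1 (h • vL), Lp.coeFn_smul h vL] with x h1 h2
      simp only [Prod.fst_add, Prod.smul_fst]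
      rw [h1, Pi.add_apply, h2, Pi.smul_apply, smul_eq_mul]
    · filter_upwards [Lp.coeFn_add F.1.2 (h • VL), Lp.coeFn_smul h VL] with x h1 h2
      simp only [Prod.snd_add, Prod.smul_snd]
      rw [h1, Pi.add_apply, h2, Pi.smul_apply]
  · refine mem_H10 hΩ ?_
    refine (hvH.smul (-1)).congr ?_ ?_
    · filter_upwards [Lp.coeFn_neg vL] with x h1
      simp only [Prod.fst_neg]
      rw [h1, Pi.neg_apply]
      ring
    · filter_upwards [Lp.coeFn_neg VL] with x h1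
      simp only [Prod.snd_neg]
      rw [h1, Pi.neg_apply, neg_one_smul]
  · have h1 := hF.2
    have h2 := hvH.off.1
    simp only [L2on, Set.mem_ofPred_eq] at h1 ⊢
    filter_upwards [h1, h2, Lp.coeFn_smul h⁻¹ (F.2 - vL), Lp.coeFn_sub F.2 vL] with x h3 h4 h5 h6 hx
    rw [h5, Pi.smul_apply, h6, Pi.sub_apply, h3 hx, h4 hx]
    simp
  · rw [memLp_congr_ae ev]
    have h1 := hv.2
    rw [← integrable_norm_rpow_iff mv.1 (by simp; linarith) (by simp),
      ENNReal.toReal_ofReal (by linarith)]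
    simpa [Real.norm_eq_abs] using h1
  · intro φ hφ
    have hφT : Tst Ω φ := ⟨hφ.1.of_le (by exact_mod_cast le_top), hφ.2.1, hφ.2.2⟩
    have hA : HX.Adm Ω (α + 2) φ (gradient φ) := by
      refine ⟨hφT.h10, ?_⟩
      refine Continuous.integrable_of_hasCompactSupport
        ((HX.abs_rpow_continuous (by linarith : 0 ≤ α + 2)).comp hφT.1.continuous) ?_
      refine hφT.2.1.comp_left (g := fun s : ℝ => |s| ^ (α + 2)) ?_
      rw [abs_zero, Real.zero_rpow (by linarith)]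
    have h1 := hEq _ _ hA
    have mφ := HX.Tst.mem hφT
    have mG := HX.Tst.memG hφT
    -- the integrals of the equation
    have e1 : ∫ x, (⟪(((F.1 + h • (vL, VL)).2 : L2v N) : E N → E N) x, gradient φ x⟫ : ℝ) =
        (∫ x, ⟪(F.1.2 : E N → E N) x, gradient φ x⟫) + h * ∫ x, ⟪V x, gradient φ x⟫ := by
      rw [← integral_const_mul, ← integral_add (HX.inner_int2 (Lp.memLp F.1.2) mG)
        ((HX.inner_int2 mV mG).const_mul h)]
      refine integral_congr_ae ?_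
      filter_upwards [Lp.coeFn_add F.1.2 (h • VL), Lp.coeFn_smul h VL, eV] with x h1 h2 h3
      simp only [Prod.snd_add, Prod.smul_snd]
      rw [h1, Pi.add_apply, h2, Pi.smul_apply, h3, inner_add_left, real_inner_smul_left]
    have e2 : ∫ x, a * |(vL : E N → ℝ) x| ^ α * (vL : E N → ℝ) x * φ x =
        a * ∫ x, g (α + 2) (v x) * φ x := by
      rw [← integral_const_mul]
      refine integral_congr_ae ?_
      filter_upwards [ev] with x h3
      rw [h3]
      simp only [g]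
      rw [show α + 2 - 2 = α by ring]
      ring
    have e3 : ∫ x, ((h⁻¹ • (F.2 - vL) : L2 N) : E N → ℝ) x * φ x =
        h⁻¹ * ((∫ x, (F.2 : E N → ℝ) x * φ x) - ∫ x, v x * φ x) := by
      rw [← integral_sub (HX.mul_int hR mφ) (HX.mul_int mv mφ), ← integral_const_mul]
      refine integral_congr_ae ?_
      filter_upwards [Lp.coeFn_smul h⁻¹ (F.2 - vL), Lp.coeFn_sub F.2 vL, ev] with x h5 h6 h7
      rw [h5, Pi.smul_apply, h6, Pi.sub_apply, h7, smul_eq_mul]
      ring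
    have e4 : ∫ x, (⟪(-h) • (F.1.2 : E N → E N) x, gradient φ x⟫ : ℝ) =
        -h * ∫ x, ⟪(F.1.2 : E N → E N) x, gradient φ x⟫ := by
      rw [← integral_const_mul]
      refine integral_congr_ae (ae_of_all _ fun x => ?_)
      simp only [real_inner_smul_left]
    rw [e4] at h1
    simp only
    rw [e1, e2, e3]
    field_simp
    linarith
  · refine Prod.ext ?_ ?_
    · simp only [Prod.fst_add, Prod.smul_fst]
      rw [smul_neg]
      abel
    · simp only [Prod.snd_add, Prod.smul_snd]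
      rw [smul_smul, mul_inv_cancel₀ hh.ne', one_smul]
      abel

end Pool.Agent.H25.Hx2
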