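import Pool.Agent.H25.Hx2.E1_Abs
import Pool.Agent.H25.Hx2.MaxMono

/-!
# The energy space as a Hilbert space
-/

set_option autoImplicit false

open MeasureTheory Filter Topology Metric Set
open scoped ContDiff RealInnerProductSpace

namespace Pool.Agent.H25.Hx2

open Pool.Agent.H25
open Pool.Agent.H25.HX (Tst g)
open Pool.Agent.H40.Hx (E L2 L2v St IsTest H10 L2on EnergySpace energy IsA PP)

variable {N : ℕ} {Ω : Set (E N)}

/-- `PP` as a linear map -/
noncomputable def PPl (N : ℕ) : St N →ₗ[ℝ] WithLp 2 (L2 N × L2v N) where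
  toFun := PP
  map_add' := fun _ _ => rfl
  map_smul' := fun _ _ => rfl

theorem PPl_apply (U : St N) : PPl N U = PP U := rfl

/-- Poincaré: the energy norm controls the norm of `St` -/
theorem energy_poincare (hb : Bornology.IsBounded Ω) (hN : 1 ≤ N) : ∃ C : ℝ, 0 < C ∧
    ∀ U ∈ EnergySpace Ω, ‖U‖ ≤ C * ‖PP U‖ := by
  obtain ⟨C, hC, H⟩ := HX.H10.poincare hb hN
  refine ⟨Real.sqrt C + 1, by positivity, fun U hU => ?_⟩
  have h1 := H _ _ (Pool.Agent.H40.Hx.H10.toHX hU.1)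
  have h2 : ‖U.1.1‖ ^ 2 = ∫ x, ((U.1.1 : E N → ℝ) x) ^ 2 := by
    have e1 := HX.toLp_norm_sq (Lp.memLp U.1.1)
    rw [Lp.toLp_coeFn] at e1
    rw [e1]
    exact integral_congr_ae (ae_of_all _ fun t => by simp [Real.norm_eq_abs, sq_abs])
  have h3 : ‖U.1.2‖ ^ 2 = ∫ x, ‖(U.1.2 : E N → E N) x‖ ^ 2 := by
    have e1 := HX.toLp_norm_sq (Lp.memLp U.1.2)
    rwa [Lp.toLp_coeFn] at e1
  rw [← h2, ← h3] at h1
  have h4 := Pool.Agent.H40.Hx.PP_norm_sq U
  rw [energy] at h4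
  have h5 : ‖U.2‖ ≤ ‖PP U‖ := by
    refine le_of_sq_le_sq ?_ (norm_nonneg _)
    rw [h4]
    have := sq_nonneg ‖U.1.2‖
    linarith
  have h6 : ‖U.1.2‖ ≤ ‖PP U‖ := by
    refine le_of_sq_le_sq ?_ (norm_nonneg _)
    rw [h4]
    have := sq_nonneg ‖U.2‖
    linarith
  have h7 : ‖U.1.1‖ ≤ Real.sqrt C * ‖PP U‖ := by
    refine le_of_sq_le_sq ?_ (by positivity)
    rw [mul_pow, Real.sq_sqrt hC.le]
    exact h1.trans (mul_le_mul_of_nonneg_left
      (pow_le_pow_left₀ (norm_nonneg _) h6 2) hC.le)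
  have h8 := norm_nonneg (PP U)
  have h9 := Real.sqrt_nonneg C
  have h10 := mul_nonneg h9 h8
  rw [Prod.norm_def, Prod.norm_def]
  refine max_le (max_le ?_ ?_) ?_ <;> nlinarith

/-- pairs `(φ, ∇φ)`, `φ` a test function -/
def S0 (Ω : Set (E N)) : Submodule ℝ (L2 N × L2v N) where
  carrier := {x | ∃ φ : E N → ℝ, IsTest Ω φ ∧ (x.1 : E N → ℝ) =ᵐ[volume] φ ∧
    (x.2 : E N → E N) =ᵐ[volume] gradient φ}
  zero_mem' := by
    refine ⟨fun _ => 0, ⟨contDiff_const, HasCompactSupport.zero, ?_⟩, ?_, ?_⟩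
    · exact (HX.Tst.zero (Ω := Ω)).2.2
    · exact Lp.coeFn_zero ℝ 2 (volume : Measure (E N))
    · filter_upwards [Lp.coeFn_zero (E N) 2 (volume : Measure (E N))] with x hx
      simp only [Prod.snd_zero]
      rw [hx]
      simp
  add_mem' := by
    rintro x y ⟨φ, h1, h2, h3⟩ ⟨ψ, h4, h5, h6⟩
    refine ⟨fun t => φ t + ψ t, ⟨h1.1.add h4.1, h1.2.1.add h4.2.1,
      (tsupport_add φ ψ).trans (Set.union_subset h1.2.2 h4.2.2)⟩, ?_, ?_⟩
    · filter_upwards [Lp.coeFn_add x.1 y.1, h2, h5] with t a1 a2 a3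
      simp only [Prod.fst_add]
      rw [a1, Pi.add_apply, a2, a3]
    · filter_upwards [Lp.coeFn_add x.2 y.2, h3, h6] with t a1 a2 a3
      simp only [Prod.snd_add]
      rw [a1, Pi.add_apply, a2, a3, HX.grad_add (h1.1.of_le (by exact_mod_cast le_top))
        (h4.1.of_le (by exact_mod_cast le_top))]
  smul_mem' := by
    rintro c x ⟨φ, h1, h2, h3⟩
    refine ⟨fun t => c * φ t, ⟨contDiff_const.mul h1.1, h1.2.1.mul_left,
      (tsupport_mul_subset_right).trans h1.2.2⟩, ?_, ?_⟩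
    · filter_upwards [Lp.coeFn_smul c x.1, h2] with t a1 a2
      simp only [Prod.smul_fst]
      rw [a1, Pi.smul_apply, a2, smul_eq_mul]
    · filter_upwards [Lp.coeFn_smul c x.2, h3] with t a1 a2
      simp only [Prod.smul_snd]
      rw [a1, Pi.smul_apply, a2, HX.grad_smul (h1.1.of_le (by exact_mod_cast le_top))]

theorem H10_eq (Ω : Set (E N)) : H10 Ω = ((S0 Ω).topologicalClosure : Set (L2 N × L2v N)) := by
  rw [Submodule.topologicalClosure_coe]
  rfl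

/-- the energy space as a subspace -/
def ES (Ω : Set (E N)) : Submodule ℝ (St N) where
  carrier := EnergySpace Ω
  zero_mem' := by
    refine ⟨?_, ?_⟩
    · rw [H10_eq]; exact Submodule.zero_mem _
    · filter_upwards [Lp.coeFn_zero ℝ 2 (volume : Measure (E N))] with x hx _
      simp only [Prod.snd_zero]
      rw [hx]
      rfl
  add_mem' := by
    rintro x y ⟨h1, h2⟩ ⟨h3, h4⟩
    refine ⟨?_, ?_⟩
    · rw [H10_eq] at h1 h3 ⊢
      exact Submodule.add_mem _ h1 h3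
    · simp only [L2on, Set.mem_ofPred_eq] at h2 h4 ⊢
      filter_upwards [Lp.coeFn_add x.2 y.2, h2, h4] with t a1 a2 a3 ht
      simp only [Prod.snd_add]
      rw [a1, Pi.add_apply, a2 ht, a3 ht, add_zero]
  smul_mem' := by
    rintro c x ⟨h1, h2⟩
    refine ⟨?_, ?_⟩
    · rw [H10_eq] at h1 ⊢
      exact Submodule.smul_mem _ c h1
    · simp only [L2on, Set.mem_ofPred_eq] at h2 ⊢
      filter_upwards [Lp.coeFn_smul c x.2, h2] with t a1 a2 ht
      simp only [Prod.smul_snd]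
      rw [a1, Pi.smul_apply, a2 ht, smul_zero]

theorem mem_ES {U : St N} : U ∈ ES Ω ↔ U ∈ EnergySpace Ω := Iff.rfl

theorem e6_L2on_closed (Ω : Set (E N)) : IsClosed (L2on Ω) := by
  refine IsSeqClosed.isClosed fun v v0 hv hlim => ?_
  have h1 : TendstoInMeasure volume (fun n => (v n : E N → ℝ)) atTop (v0 : E N → ℝ) :=
    tendstoInMeasure_of_tendsto_Lp hlim
  obtain ⟨ns, -, hae⟩ := h1.exists_seq_tendsto_ae
  have h2 : ∀ᵐ x ∂(volume : Measure (E N)), ∀ n, x ∉ Ω → (v n : E N → ℝ) x = 0 :=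
    ae_all_iff.2 hv
  filter_upwards [hae, h2] with x h3 h4 hx
  have h5 : Tendsto (fun i => (v (ns i) : E N → ℝ) x) atTop (𝓝 0) := by
    simp only [h4 _ hx]
    exact tendsto_const_nhds
  exact tendsto_nhds_unique h3 h5

theorem ES_closed (Ω : Set (E N)) : IsClosed (EnergySpace Ω) := by
  have h1 : EnergySpace Ω = (fun U : St N => U.1) ⁻¹' (H10 Ω) ∩ (fun U : St N => U.2) ⁻¹'
      (L2on Ω) := rfl
  rw [h1]
  exact (isClosed_closure.preimage continuous_fst).inter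
    ((e6_L2on_closed Ω).preimage continuous_snd)

/-- the energy space with the energy norm -/
noncomputable def XS (Ω : Set (E N)) : Submodule ℝ (WithLp 2 (L2 N × L2v N)) :=
  (ES Ω).map (PPl N)

/-- `PP` restricted to the energy space -/
noncomputable def PPc (Ω : Set (E N)) : ES Ω →L[ℝ] WithLp 2 (L2 N × L2v N) :=
  ((PPl N).comp (ES Ω).subtype).mkContinuous 2 fun x => Pool.Agent.H40.Hx.PP_norm_le (x : St N)

theorem PPc_apply (x : ES Ω) : PPc Ω x = PP (x : St N) := rfl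

theorem XS_complete (hb : Bornology.IsBounded Ω) (hN : 1 ≤ N) : CompleteSpace (XS Ω) := by
  obtain ⟨C, hC, H⟩ := energy_poincare (Ω := Ω) hb hN
  have hcl : IsClosed ((XS Ω : Submodule ℝ (WithLp 2 (L2 N × L2v N))) :
      Set (WithLp 2 (L2 N × L2v N))) := by
    have h1 : AntilipschitzWith ⟨C, hC.le⟩ (PPc Ω) :=
      AddMonoidHomClass.antilipschitz_of_bound _ fun x => H _ x.2
    have h2 : CompleteSpace (ES Ω) := (ES_closed Ω).completeSpace_coe
    have h3 := h1.isClosed_range (PPc Ω).uniformContinuous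
    have h4 : range (PPc Ω) = ((XS Ω : Submodule ℝ (WithLp 2 (L2 N × L2v N))) :
        Set (WithLp 2 (L2 N × L2v N))) := by
      ext q
      constructor
      · rintro ⟨x, rfl⟩
        exact ⟨x, x.2, rfl⟩
      · rintro ⟨U, hU, rfl⟩
        exact ⟨⟨U, hU⟩, rfl⟩
    rwa [h4] at h3
  exact hcl.completeSpace_coe

/-- the inverse of `PP` on the energy space -/
theorem exists_lift (hb : Bornology.IsBounded Ω) (hN : 1 ≤ N) : ∃ lft : XS Ω →L[ℝ] St N,
    (∀ x, lft x ∈ EnergySpace Ω) ∧ (∀ x : XS Ω, PP (lft x) = x) ∧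
      ∀ U, ∀ hU : U ∈ EnergySpace Ω, lft ⟨PP U, ⟨U, hU, rfl⟩⟩ = U := by
  obtain ⟨C, hC, H⟩ := energy_poincare (Ω := Ω) hb hN
  set f : ES Ω →ₗ[ℝ] XS Ω := (PPl N).submoduleMap (ES Ω) with hf
  have hfa : ∀ x : ES Ω, ((f x : XS Ω) : WithLp 2 (L2 N × L2v N)) = PP (x : St N) := fun x => rfl
  have hinj : Function.Injective f := by
    refine (injective_iff_map_eq_zero f).2 fun x hx => ?_
    have h1 := H _ x.2
    rw [← hfa, hx] at h1
    have h2 : ‖((0 : XS Ω) : WithLp 2 (L2 N × L2v N))‖ = 0 := by simp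
    rw [h2, mul_zero] at h1
    exact Subtype.ext (norm_le_zero_iff.1 h1)
  have hsurj : Function.Surjective f := (PPl N).submoduleMap_surjective (ES Ω)
  let e : ES Ω ≃ₗ[ℝ] XS Ω := LinearEquiv.ofBijective f ⟨hinj, hsurj⟩
  have he : ∀ x : XS Ω, PP ((e.symm x : ES Ω) : St N) = x := by
    intro x
    rw [← hfa]
    exact congrArg Subtype.val (e.apply_symm_apply x)
  let lft0 : XS Ω →ₗ[ℝ] St N := (ES Ω).subtype.comp e.symm.toLinearMap
  refine ⟨lft0.mkContinuous C fun x => ?_, fun x => (e.symm x).2, he, fun U hU => ?_⟩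
  · have h1 := H _ (e.symm x).2
    rw [he x] at h1
    exact h1
  · have h1 : e ⟨U, hU⟩ = ⟨PP U, ⟨U, hU, rfl⟩⟩ := rfl
    change ((e.symm ⟨PP U, ⟨U, hU, rfl⟩⟩ : ES Ω) : St N) = U
    rw [← h1, e.symm_apply_apply]

/-- both components of the graph of `A` are in the energy space -/
theorem isA_mem {a α : ℝ} {U V : St N} (h : IsA a α Ω U V) :
    U ∈ EnergySpace Ω ∧ V ∈ EnergySpace Ω := by
  obtain ⟨h1, h2, h3, h4, -, -⟩ := h
  refine ⟨⟨h1, ?_⟩, ⟨h2, h4⟩⟩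
  have h7 := (Pool.Agent.H40.Hx.H10.toHX h2).off.1
  rw [h3] at h7
  simp only [L2on, Set.mem_ofPred_eq]
  filter_upwards [h7, Lp.coeFn_neg U.2] with x hx hx2 hxΩ
  have := hx hxΩ
  rw [hx2, Pi.neg_apply, neg_eq_zero] at this
  exact this

theorem XS_mmono {a α : ℝ} (ha : 0 < a) (hα : 0 < α) (hΩ : IsOpen Ω)
    (hb : Bornology.IsBounded Ω) {lft : XS Ω →L[ℝ] St N} (h1 : ∀ x, lft x ∈ EnergySpace Ω)
    (h2 : ∀ x : XS Ω, PP (lft x) = x)
    (h3 : ∀ U, ∀ hU : U ∈ EnergySpace Ω, lft ⟨PP U, ⟨U, hU, rfl⟩⟩ = U) :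
    MMono (fun x y : XS Ω => IsA a α Ω (lft x) (lft y)) := by
  constructor
  · intro x y x' y' h h'
    have h4 := isA_mono ha.le hα hΩ hb h h'
    rw [Submodule.coe_inner, AddSubgroupClass.coe_sub, AddSubgroupClass.coe_sub, ← h2 x, ← h2 y,
      ← h2 x', ← h2 y', ← Pool.Agent.H40.Hx.PP_sub, ← Pool.Agent.H40.Hx.PP_sub,
      Pool.Agent.H40.Hx.PP_inner]
    exact h4
  · intro h hh f
    obtain ⟨U, V, hUV, hF⟩ := isA_range ha hα hΩ hh (h1 f)
    obtain ⟨hU, hV⟩ := isA_mem hUV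
    refine ⟨⟨PP U, ⟨U, hU, rfl⟩⟩, ⟨PP V, ⟨V, hV, rfl⟩⟩, ?_, ?_⟩
    · rw [h3 U hU, h3 V hV]
      exact hUV
    · refine Subtype.ext ?_
      change PP U + h • PP V = (f : WithLp 2 (L2 N × L2v N))
      rw [← Pool.Agent.H40.Hx.PP_smul, ← Pool.Agent.H40.Hx.PP_add, hF, h2]

end Pool.Agent.H25.Hx2
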