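import Pool.Agent.H40.Hx.TDefs

/-!
# Lipschitz approximation of the force
-/

set_option autoImplicit false

open MeasureTheory Filter Topology Metric Set
open scoped ContDiff RealInnerProductSpace

namespace Pool.Agent.H25.Hx2

open Pool.Agent.H40.Hx (E L2 L2v St IsTest H10 L2on EnergySpace energy IsA BoundedForce)

variable {N : ℕ} {Ω : Set (E N)}

/-- `L²(Ω)` as a subspace -/
def L2S (Ω : Set (E N)) : Submodule ℝ (L2 N) where
  carrier := L2on Ω
  zero_mem' := by
    simp only [L2on, Set.mem_ofPred_eq]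
    filter_upwards [Lp.coeFn_zero ℝ 2 (volume : Measure (E N))] with x hx _
    rw [hx, Pi.zero_apply]
  add_mem' := by
    intro a b ha hb
    simp only [L2on, Set.mem_ofPred_eq] at ha hb ⊢
    filter_upwards [ha, hb, Lp.coeFn_add a b] with x h1 h2 h3 hx
    rw [h3, Pi.add_apply, h1 hx, h2 hx, add_zero]
  smul_mem' := by
    intro c a ha
    simp only [L2on, Set.mem_ofPred_eq] at ha ⊢
    filter_upwards [ha, Lp.coeFn_smul c a] with x h1 h3 hx
    rw [h3, Pi.smul_apply, h1 hx, smul_zero]

theorem mem_L2S {v : L2 N} : v ∈ L2S Ω ↔ v ∈ L2on Ω := Iff.rfl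

theorem L2on_closed (Ω : Set (E N)) : IsClosed (L2on Ω) := by
  refine isClosed_of_closure_subset fun v hv => ?_
  rw [mem_closure_iff_seq_limit] at hv
  obtain ⟨x, hx, hl⟩ := hv
  have h1 := tendstoInMeasure_of_tendsto_Lp hl
  obtain ⟨ns, -, h2⟩ := h1.exists_seq_tendsto_ae
  have h3 : ∀ᵐ y ∂(volume : Measure (E N)), ∀ n, y ∉ Ω → (x n : E N → ℝ) y = 0 :=
    ae_all_iff.2 fun n => hx n
  simp only [L2on, Set.mem_ofPred_eq]
  filter_upwards [h2, h3] with y h4 h5 hy
  refine tendsto_nhds_unique h4 ?_
  have : (fun i => (x (ns i) : E N → ℝ) y) = fun _ => 0 := by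
    funext i
    exact h5 (ns i) hy
  rw [this]
  exact tendsto_const_nhds

instance L2S_complete (Ω : Set (E N)) : CompleteSpace (L2S Ω) :=
  (show IsClosed (L2S Ω : Set (L2 N)) from L2on_closed Ω).completeSpace_coe

/-- time averages of a continuous compactly supported function -/
theorem avg_lip {X : Type*} [NormedAddCommGroup X] [NormedSpace ℝ X] [CompleteSpace X]
    {g : ℝ → X} (hg : Continuous g) (hc : HasCompactSupport g) {η : ℝ} (hη : 0 < η) :
    ∃ (G : ℝ → X) (L : ℝ), 0 ≤ L ∧ (∀ s t, ‖G s - G t‖ ≤ L * |s - t|) ∧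
      ∀ t, ‖G t - g t‖ ≤ η := by
  obtain ⟨C, hC⟩ := hc.exists_bound_of_continuous hg
  have hC0 : 0 ≤ C := (norm_nonneg _).trans (hC 0)
  have hu := hc.uniformContinuous_of_continuous hg
  obtain ⟨δ, hδ, h1⟩ := Metric.uniformContinuous_iff.1 hu η hη
  set d : ℝ := δ / 2 with hd
  have hd0 : 0 < d := by positivity
  have hii : ∀ a b : ℝ, IntervalIntegrable g volume a b := fun a b => hg.intervalIntegrable a b
  refine ⟨fun t => d⁻¹ • ∫ s in t..(t + d), g s, d⁻¹ * (2 * C), by positivity, ?_, ?_⟩
  · intro s t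
    simp only
    rw [← smul_sub]
    have e1 : (∫ r in s..(s + d), g r) - ∫ r in t..(t + d), g r =
        (∫ r in (t + d)..(s + d), g r) - ∫ r in t..s, g r := by
      have a1 := intervalIntegral.integral_add_adjacent_intervals (hii t s) (hii s (s + d))
      have a2 := intervalIntegral.integral_add_adjacent_intervals (hii t (t + d))
        (hii (t + d) (s + d))
      have a3 : ∫ r in s..(s + d), g r = (∫ r in t..(s + d), g r) - ∫ r in t..s, g r := by
        rw [← a1]
        abel
      rw [a3, ← a2]
      abel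
    rw [e1, norm_smul, Real.norm_eq_abs, abs_of_pos (inv_pos.2 hd0), mul_assoc]
    refine mul_le_mul_of_nonneg_left ?_ (inv_pos.2 hd0).le
    have b1 := intervalIntegral.norm_integral_le_of_norm_le_const (a := t + d) (b := s + d)
      (f := g) (C := C) (fun x _ => hC x)
    have b2 := intervalIntegral.norm_integral_le_of_norm_le_const (a := t) (b := s)
      (f := g) (C := C) (fun x _ => hC x)
    have b3 := norm_sub_le (∫ r in (t + d)..(s + d), g r) (∫ r in t..s, g r)
    rw [show s + d - (t + d) = s - t by ring] at b1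
    linarith
  · intro t
    simp only
    have e1 : g t = d⁻¹ • ∫ _ in t..(t + d), g t := by
      rw [intervalIntegral.integral_const, smul_smul, add_sub_cancel_left,
        inv_mul_cancel₀ hd0.ne', one_smul]
    rw [e1, ← smul_sub, ← intervalIntegral.integral_sub (hii _ _) (by simp), norm_smul,
      Real.norm_eq_abs, abs_of_pos (inv_pos.2 hd0)]
    have b1 := intervalIntegral.norm_integral_le_of_norm_le_const (a := t) (b := t + d)
      (f := fun x => g x - g t) (C := η) (fun x hx => by
        rw [uIoc_of_le (by linarith)] at hx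
        have := h1 (a := x) (b := t) (by
          rw [Real.dist_eq, abs_of_pos (by linarith [hx.1])]
          linarith [hx.2])
        rw [dist_eq_norm] at this
        exact this.le)
    rw [add_sub_cancel_left, abs_of_pos hd0] at b1
    calc d⁻¹ * ‖∫ x in t..(t + d), (g x - g t)‖ ≤ d⁻¹ * (η * d) :=
          mul_le_mul_of_nonneg_left b1 (inv_pos.2 hd0).le
      _ = η := by field_simp

/-- time averages `δ⁻¹ ∫_t^{t+δ} f` (`f` extended by zero to negative times) -/
theorem force_lip {M : ℝ} {f : ℝ → L2 N} (hf : BoundedForce Ω M f) {T ε : ℝ} (hT : 0 < T)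
    (hε : 0 < ε) : ∃ (F : ℝ → L2 N) (L : ℝ), 0 ≤ L ∧ (∀ t, F t ∈ L2on Ω) ∧
      (∀ s t, ‖F s - F t‖ ≤ L * |s - t|) ∧ ∫ t in (0 : ℝ)..T, ‖F t - f t‖ ≤ ε := by
  obtain ⟨hm, hs, hb⟩ := hf
  have hsub : Ioc (0 : ℝ) T ⊆ Ioi 0 := fun x hx => hx.1
  have hfi : IntegrableOn f (Ioc 0 T) := by
    have hm' : AEStronglyMeasurable f (volume.restrict (Ioc 0 T)) :=
      AEStronglyMeasurable.mono_measure hm (Measure.restrict_mono hsub le_rfl)
    have hb' : ∀ᵐ t ∂(volume.restrict (Ioc 0 T)), ‖f t‖ ≤ M :=
      ae_mono (Measure.restrict_mono hsub le_rfl) hb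
    exact ⟨hm', HasFiniteIntegral.restrict_of_bounded M (by simp) hb'⟩
  have hfi' : Integrable (Set.indicator (Ioc 0 T) f) volume :=
    hfi.integrable_indicator measurableSet_Ioc
  obtain ⟨g, hgc, hgi, hgC, hgI⟩ := hfi'.exists_hasCompactSupport_integral_sub_le
    (show (0 : ℝ) < ε / 2 by positivity)
  obtain ⟨G, L, hL, hG1, hG2⟩ := avg_lip hgC hgc (show (0 : ℝ) < ε / (2 * T) by positivity)
  have hGc : Continuous G := by
    refine (LipschitzWith.of_dist_le_mul (K := ⟨L, hL⟩) fun s t => ?_).continuous
    rw [dist_eq_norm, Real.dist_eq]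
    exact hG1 s t
  set P := (L2S Ω).starProjection with hP
  have hPn : ∀ x, ‖P x‖ ≤ ‖x‖ := fun x => by
    have := (L2S Ω).norm_starProjection_apply_le x
    exact this
  refine ⟨fun t => P (G t), L, hL, fun t => ?_, fun s t => ?_, ?_⟩
  · rw [← mem_L2S]
    exact Submodule.starProjection_apply_mem _ _
  · rw [← map_sub]
    exact (hPn _).trans (hG1 s t)
  · have hPf : ∀ᵐ t ∂(volume.restrict (Ioc (0 : ℝ) T)), P (f t) = f t := by
      filter_upwards [ae_mono (Measure.restrict_mono hsub le_rfl) hs] with t ht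
      exact Submodule.starProjection_eq_self_iff.2 ht
    have hint : IntegrableOn (fun t => G t - f t) (Ioc 0 T) :=
      (hGc.integrableOn_Ioc).sub hfi
    have hint2 : IntegrableOn (fun t => g t - f t) (Ioc 0 T) :=
      (hgI.integrableOn).sub hfi
    rw [intervalIntegral.integral_of_le hT.le]
    calc ∫ t in Ioc 0 T, ‖P (G t) - f t‖ ≤ ∫ t in Ioc 0 T, (ε / (2 * T) + ‖g t - f t‖) := by
          refine integral_mono_of_nonneg (ae_of_all _ fun t => norm_nonneg _)
            ((integrable_const _).add hint2.norm) ?_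
          filter_upwards [hPf] with t ht
          have h1 : P (G t) - f t = P (G t - f t) := by rw [map_sub, ht]
          rw [h1]
          have h2 := hPn (G t - f t)
          have h3 := hG2 t
          have h4 : G t - f t = (G t - g t) + (g t - f t) := by abel
          have h5 := norm_add_le (G t - g t) (g t - f t)
          rw [← h4] at h5
          linarith
      _ = ε / 2 + ∫ t in Ioc 0 T, ‖g t - f t‖ := by
          rw [integral_add (integrable_const _) hint2.norm, integral_const]
          simp only [MeasurableSet.univ, measureReal_restrict_apply, Set.univ_inter, smul_eq_mul]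
          rw [Real.volume_real_Ioc_of_le hT.le, sub_zero]
          congr 1
          field_simp
      _ ≤ ε / 2 + ε / 2 := by
          refine add_le_add le_rfl (le_trans ?_ hgi)
          have h1 : ∫ t in Ioc 0 T, ‖g t - f t‖ =
              ∫ t in Ioc 0 T, ‖Set.indicator (Ioc 0 T) f t - g t‖ := by
            refine setIntegral_congr_fun measurableSet_Ioc fun t ht => ?_
            rw [Set.indicator_of_mem ht, norm_sub_rev]
          rw [h1]
          exact setIntegral_le_integral (hfi'.sub hgI).norm (ae_of_all _ fun t => norm_nonneg _)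
      _ = ε := by ring

end Pool.Agent.H25.Hx2
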