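import Pool.Agent.H25.Hx2.MaxMono
import Pool.Agent.H25.Hx2.E8_Force

/-!
# The domain of `A` is dense in the energy space
-/

set_option autoImplicit false

open MeasureTheory Filter Topology Metric Set
open scoped ContDiff RealInnerProductSpace

namespace Pool.Agent.H25.Hx2

open Pool.Agent.H25
open Pool.Agent.H25.HX (Tst g)
open Pool.Agent.H40.Hx (E L2 L2v St IsTest H10 L2on EnergySpace energy IsA PP)

variable {N : ℕ} {Ω : Set (E N)}

theorem IsTest.tst {φ : E N → ℝ} (hφ : IsTest Ω φ) : Tst Ω φ :=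
  ⟨hφ.1.of_le (by exact_mod_cast le_top), hφ.2.1, hφ.2.2⟩

/-- the subspace of (classes of) test functions -/
def TS (Ω : Set (E N)) : Submodule ℝ (L2 N) where
  carrier := {v | ∃ ψ : E N → ℝ, IsTest Ω ψ ∧ (v : E N → ℝ) =ᵐ[volume] ψ}
  zero_mem' := by
    refine ⟨fun _ => 0, ⟨contDiff_const, HasCompactSupport.zero, ?_⟩, ?_⟩
    · have : tsupport (fun _ : E N => (0 : ℝ)) = ∅ := by
        rw [tsupport_eq_empty_iff]
        rfl
      rw [this]
      exact Set.empty_subset _
    · filter_upwards [Lp.coeFn_zero ℝ 2 (volume : Measure (E N))] with x hx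
      rw [hx, Pi.zero_apply]
  add_mem' := by
    rintro a b ⟨φ, h1, h2⟩ ⟨ψ, h3, h4⟩
    refine ⟨φ + ψ, ⟨h1.1.add h3.1, h1.2.1.add h3.2.1, ?_⟩, ?_⟩
    · exact (tsupport_add φ ψ).trans (Set.union_subset h1.2.2 h3.2.2)
    · filter_upwards [h2, h4, Lp.coeFn_add a b] with x h5 h6 h7
      rw [h7, Pi.add_apply, h5, h6, Pi.add_apply]
  smul_mem' := by
    rintro c a ⟨φ, h1, h2⟩
    refine ⟨c • φ, ⟨h1.1.const_smul c, ?_, ?_⟩, ?_⟩
    · exact h1.2.1.smul_left (f := fun _ => c)
    · refine (closure_mono ?_).trans h1.2.2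
      intro x hx
      simp only [Function.mem_support, Pi.smul_apply, smul_eq_mul] at hx ⊢
      exact right_ne_zero_of_mul hx
    · filter_upwards [h2, Lp.coeFn_smul c a] with x h5 h7
      rw [h7, Pi.smul_apply, h5, Pi.smul_apply]

theorem TS_le : TS Ω ≤ L2S Ω := by
  rintro v ⟨ψ, h1, h2⟩
  rw [mem_L2S]
  simp only [L2on, Set.mem_ofPred_eq]
  filter_upwards [h2] with x hx hxΩ
  rw [hx]
  exact image_eq_zero_of_notMem_tsupport fun h => hxΩ (h1.2.2 h)

/-- `C_c^∞(Ω)` is dense in `L²(Ω)` -/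
theorem test_dense (hΩ : IsOpen Ω) {v : L2 N} (hv : v ∈ L2on Ω) {ε : ℝ} (hε : 0 < ε) :
    ∃ (w : L2 N) (ψ : E N → ℝ), IsTest Ω ψ ∧ (w : E N → ℝ) =ᵐ[volume] ψ ∧ ‖v - w‖ < ε := by
  set S : Submodule ℝ (L2 N) := (TS Ω).topologicalClosure with hS
  have hSc : IsClosed (S : Set (L2 N)) := Submodule.isClosed_topologicalClosure _
  have : CompleteSpace S := hSc.completeSpace_coe
  have hSle : S ≤ L2S Ω := Submodule.topologicalClosure_minimal _ TS_le (L2on_closed Ω)
  set r : L2 N := v - S.starProjection v with hr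
  have hr1 : r ∈ L2S Ω := (L2S Ω).sub_mem hv (hSle (Submodule.starProjection_apply_mem _ _))
  have hr2 : ∀ w ∈ S, ⟪r, w⟫ = (0 : ℝ) := fun w hw => S.starProjection_inner_eq_zero v w hw
  have hr3 : ∀ᵐ x ∂(volume : Measure (E N)), x ∈ Ω → (r : E N → ℝ) x = 0 := by
    refine hΩ.ae_eq_zero_of_integral_contDiff_smul_eq_zero ?_ ?_
    · exact ((Lp.memLp r).locallyIntegrable (by norm_num)).locallyIntegrableOn _
    · intro φ h1 h2 h3
      have hT : IsTest Ω φ := ⟨h1, h2, h3⟩
      have m1 := HX.Tst.mem (IsTest.tst hT)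
      have h4 := hr2 (m1.toLp φ) (Submodule.le_topologicalClosure _ ⟨φ, hT, m1.coeFn_toLp⟩)
      rw [L2.inner_def] at h4
      rw [← h4]
      refine integral_congr_ae ?_
      filter_upwards [m1.coeFn_toLp] with x hx
      rw [hx]
      simp
  have hr4 : r = 0 := by
    rw [Lp.eq_zero_iff_ae_eq_zero]
    have h5 := mem_L2S.1 hr1
    simp only [L2on, Set.mem_ofPred_eq] at h5
    filter_upwards [hr3, h5] with x h6 h7
    by_cases hx : x ∈ Ω
    · exact h6 hx
    · exact h7 hx
  have hvS : v ∈ S := by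
    have : v = S.starProjection v := by rw [← sub_eq_zero]; exact hr4
    rw [this]
    exact Submodule.starProjection_apply_mem _ _
  have hvc : v ∈ closure (TS Ω : Set (L2 N)) := by
    rw [← Submodule.topologicalClosure_coe]
    exact hvS
  obtain ⟨w, ⟨ψ, h1, h2⟩, h3⟩ := Metric.mem_closure_iff.1 hvc ε hε
  exact ⟨w, ψ, h1, h2, by rwa [dist_eq_norm] at h3⟩

/-- directional derivative -/
noncomputable def pd (φ : E N → ℝ) (i : Fin N) (x : E N) : ℝ :=
  fderiv ℝ φ x (EuclideanSpace.single i 1)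

theorem pd_cont {φ : E N → ℝ} (h : ContDiff ℝ ∞ φ) (i : Fin N) : ContDiff ℝ ∞ (pd φ i) :=
  (h.fderiv_right (m := ∞) (by simp)).clm_apply contDiff_const

theorem pd_test {φ : E N → ℝ} (h : IsTest Ω φ) (i : Fin N) : IsTest Ω (pd φ i) := by
  refine ⟨pd_cont h.1 i, ?_, ?_⟩
  · exact (h.2.1.fderiv (𝕜 := ℝ)).comp_left
      (g := fun L : E N →L[ℝ] ℝ => L (EuclideanSpace.single i 1)) (by simp)
  · refine (closure_mono ?_).trans ((tsupport_fderiv_subset ℝ).trans h.2.2)
    intro x hx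
    simp only [Function.mem_support, pd, ne_eq] at hx ⊢
    intro h1
    exact hx (by rw [h1]; rfl)

theorem inner_grad_eq {φ η : E N → ℝ} (x : E N) :
    (⟪gradient φ x, gradient η x⟫ : ℝ) = ∑ i, pd φ i x * pd η i x := by
  rw [PiLp.inner_apply]
  refine Finset.sum_congr rfl fun i _ => ?_
  have h1 : ∀ ζ : E N → ℝ, gradient ζ x i = pd ζ i x := by
    intro ζ
    rw [pd, ← HX.inner_gradient, EuclideanSpace.inner_single_right]
    simp
  rw [h1, h1]
  simp [mul_comm]

theorem green {φ η : E N → ℝ} (hφ : IsTest Ω φ) (hη : IsTest Ω η) :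
    ∫ x, (⟪gradient φ x, gradient η x⟫ : ℝ) = ∫ x, (-∑ i, pd (pd φ i) i x) * η x := by
  have hi : ∀ {α β : E N → ℝ}, IsTest Ω α → IsTest Ω β → Integrable (fun x => α x * β x) volume :=
    fun {α β} hα hβ => (hα.1.continuous.mul hβ.1.continuous).integrable_of_hasCompactSupport
      hα.2.1.mul_right
  have h1 : ∀ i, ∫ x, pd φ i x * pd η i x = - ∫ x, pd (pd φ i) i x * η x := by
    intro i
    have := integral_mul_fderiv_eq_neg_fderiv_mul_of_integrable (μ := (volume : Measure (E N)))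
      (f := pd φ i) (g := η) (v := EuclideanSpace.single i 1)
      (hi (pd_test (pd_test hφ i) i) hη) (hi (pd_test hφ i) (pd_test hη i))
      (hi (pd_test hφ i) hη)
      (fun x _ => (pd_cont hφ.1 i).differentiable (by simp) x)
      (fun x _ => hη.1.differentiable (by simp) x)
    exact this
  calc ∫ x, (⟪gradient φ x, gradient η x⟫ : ℝ) = ∫ x, ∑ i, pd φ i x * pd η i x :=
        integral_congr_ae (ae_of_all _ fun x => inner_grad_eq x)
    _ = ∑ i, ∫ x, pd φ i x * pd η i x :=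
        integral_finsetSum _ fun i _ => hi (pd_test hφ i) (pd_test hη i)
    _ = ∑ i, ∫ x, (-pd (pd φ i) i x) * η x := by
        refine Finset.sum_congr rfl fun i _ => ?_
        rw [h1 i, ← integral_neg]
        refine integral_congr_ae (ae_of_all _ fun x => ?_)
        simp
    _ = ∫ x, ∑ i, (-pd (pd φ i) i x) * η x := by
        refine (integral_finsetSum _ fun i _ => ?_).symm
        have := (hi (pd_test (pd_test hφ i) i) hη).neg
        refine this.congr (ae_of_all _ fun x => ?_)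
        simp
    _ = _ := by
        refine integral_congr_ae (ae_of_all _ fun x => ?_)
        simp only [← Finset.sum_mul, Finset.sum_neg_distrib]

/-- pairs of test functions are in the domain of `A` -/
theorem isA_test {a α : ℝ} (hα : 0 < α) (hΩ : IsOpen Ω) {φ ψ : E N → ℝ} (hφ : IsTest Ω φ)
    (hψ : IsTest Ω ψ) {U : St N} (h1 : (U.1.1 : E N → ℝ) =ᵐ[volume] φ)
    (h2 : (U.1.2 : E N → E N) =ᵐ[volume] gradient φ) (h3 : (U.2 : E N → ℝ) =ᵐ[volume] ψ) :
    ∃ V, IsA a α Ω U V := by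
  have mψ := HX.Tst.mem (IsTest.tst hψ)
  have mG := HX.Tst.memG (IsTest.tst hψ)
  set R : E N → ℝ := fun x => (-∑ i, pd (pd φ i) i x) + a * |ψ x| ^ α * ψ x with hR
  have cR : Continuous R := by
    refine (continuous_finsetSum _ fun i _ => ?_).neg.add ((continuous_const.mul ?_).mul
      hψ.1.continuous)
    · exact (pd_test (pd_test hφ i) i).1.continuous
    · exact hψ.1.continuous.abs.rpow_const fun x => Or.inr hα.le
  have sR : ∀ x, x ∉ tsupport φ ∪ tsupport ψ → R x = 0 := by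
    intro x hx
    rw [Set.mem_union, not_or] at hx
    have e1 : ∀ i, pd (pd φ i) i x = 0 := by
      intro i
      have t1 : IsTest (tsupport φ) φ := ⟨hφ.1, hφ.2.1, subset_rfl⟩
      exact image_eq_zero_of_notMem_tsupport fun h => hx.1 ((pd_test (pd_test t1 i) i).2.2 h)
    have e2 : ψ x = 0 := image_eq_zero_of_notMem_tsupport hx.2
    simp [hR, e1, e2]
  have kR : HasCompactSupport R :=
    HasCompactSupport.intro (hφ.2.1.isCompact.union hψ.2.1.isCompact) fun x hx => sR x hx
  have mR : MemLp R 2 volume := cR.memLp_of_hasCompactSupport kR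
  refine ⟨((-U.2, mG.neg.toLp _), mR.toLp R), ?_, ?_, rfl, ?_, ?_, ?_⟩
  · exact subset_closure ⟨φ, hφ, h1, h2⟩
  · refine subset_closure ⟨fun x => -ψ x, ⟨hψ.1.neg, hψ.2.1.comp_left (g := fun t => -t) (by simp),
      ?_⟩, ?_, ?_⟩
    · refine (closure_mono ?_).trans hψ.2.2
      intro x hx
      simpa using hx
    · filter_upwards [h3, Lp.coeFn_neg U.2] with x h4 h5
      rw [h5, Pi.neg_apply, h4]
    · filter_upwards [mG.neg.coeFn_toLp] with x h4
      rw [h4, Pi.neg_apply]
      have := HX.grad_smul (φ := ψ) (IsTest.tst hψ).1 (-1) x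
      simpa using this.symm
  · simp only [L2on, Set.mem_ofPred_eq]
    filter_upwards [mR.coeFn_toLp] with x h4 hx
    rw [h4]
    exact sR x fun h => hx (h.elim (fun h => hφ.2.2 h) fun h => hψ.2.2 h)
  · rw [memLp_congr_ae h3]
    exact hψ.1.continuous.memLp_of_hasCompactSupport hψ.2.1
  · intro η hη
    have i1 : Integrable (fun x => (-∑ i, pd (pd φ i) i x) * η x) volume := by
      refine Continuous.integrable_of_hasCompactSupport ?_ hη.2.1.mul_left
      exact (continuous_finsetSum _ fun i _ => (pd_test (pd_test hφ i) i).1.continuous).neg.mul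
        hη.1.continuous
    have i2 : Integrable (fun x => a * |ψ x| ^ α * ψ x * η x) volume := by
      refine Continuous.integrable_of_hasCompactSupport ?_ hη.2.1.mul_left
      exact ((continuous_const.mul (hψ.1.continuous.abs.rpow_const fun x => Or.inr hα.le)).mul
        hψ.1.continuous).mul hη.1.continuous
    have e1 : ∫ x, (⟪(U.1.2 : E N → E N) x, gradient η x⟫ : ℝ) =
        ∫ x, (-∑ i, pd (pd φ i) i x) * η x := by
      rw [← green hφ hη]
      refine integral_congr_ae ?_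
      filter_upwards [h2] with x h4
      rw [h4]
    have e2 : ∫ x, a * |(U.2 : E N → ℝ) x| ^ α * (U.2 : E N → ℝ) x * η x =
        ∫ x, a * |ψ x| ^ α * ψ x * η x := by
      refine integral_congr_ae ?_
      filter_upwards [h3] with x h4
      rw [h4]
    rw [e1, e2, ← integral_add i1 i2]
    refine integral_congr_ae ?_
    filter_upwards [mR.coeFn_toLp] with x h4
    rw [h4]
    simp only [hR]
    ring

theorem isA_dense {a α : ℝ} (hα : 0 < α) (hΩ : IsOpen Ω) {U : St N} (hU : U ∈ EnergySpace Ω)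
    {ε : ℝ} (hε : 0 < ε) : ∃ U' V' : St N, IsA a α Ω U' V' ∧ ‖U - U'‖ < ε := by
  obtain ⟨w, ψ, hψ, h3, h4⟩ := test_dense hΩ hU.2 hε
  obtain ⟨x, ⟨φ, hφ, h1, h2⟩, h5⟩ := Metric.mem_closure_iff.1 hU.1 ε hε
  obtain ⟨V, hV⟩ := isA_test (a := a) hα hΩ hφ hψ (U := (x, w)) h1 h2 h3
  refine ⟨(x, w), V, hV, ?_⟩
  rw [Prod.norm_def]
  refine max_lt ?_ h4
  rwa [dist_eq_norm] at h5

end Pool.Agent.H25.Hx2
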