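import Pool.Agent.H25.Hx2.E3_Prim
import Pool.Agent.H25.Hx2.MaxMono

/-!
# Contraction and uniqueness
-/

set_option autoImplicit false

open MeasureTheory Filter Topology Metric Set
open scoped ContDiff RealInnerProductSpace

namespace Pool.Agent.H25.Hx2

open Pool.Agent.H25
open Pool.Agent.H40.Hx (E L2 L2v St IsTest H10 L2on EnergySpace energy IsA PP StrongSol WeakSol
  BoundedForce)

variable {N : ℕ} {Ω : Set (E N)}

/-- `PP` as a continuous linear map -/
noncomputable def PPL (N : ℕ) : St N →L[ℝ] WithLp 2 (L2 N × L2v N) :=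
  LinearMap.mkContinuous
    { toFun := PP
      map_add' := fun _ _ => rfl
      map_smul' := fun _ _ => rfl } 2 fun U => Pool.Agent.H40.Hx.PP_norm_le U

theorem PPL_apply (U : St N) : PPL N U = PP U := rfl

theorem strong_contr {a α : ℝ} (ha : 0 ≤ a) (hα : 0 < α) (hΩ : IsOpen Ω)
    (hb : Bornology.IsBounded Ω) {T : ℝ} (hT : 0 ≤ T) {F U G V : ℝ → St N}
    (hU : StrongSol a α Ω T F U) (hV : StrongSol a α Ω T G V) :
    ∀ t ∈ Icc 0 T, ‖PP (U t - V t)‖ ≤ ‖PP (U 0 - V 0)‖ + 2 * ∫ s in (0 : ℝ)..t, ‖F s - G s‖ := by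
  obtain ⟨-, hF, -, W, hW, hUW, hUA⟩ := hU
  obtain ⟨-, hG, -, W', hW', hVW, hVA⟩ := hV
  intro t ht
  have hw : IntegrableOn (fun s => PPL N (W s - W' s)) (Ioc 0 T) :=
    (PPL N).integrable_comp (hW.sub hW')
  have hψ : IntegrableOn (fun s => 2 * ‖F s - G s‖) (Ioc 0 T) := (hF.sub hG).norm.const_mul 2
  have hD : ∀ t ∈ Icc 0 T, PPL N (U t - V t) =
      PPL N (U 0 - V 0) + ∫ s in (0 : ℝ)..t, PPL N (W s - W' s) := by
    intro t ht
    have hsub : Ioc 0 t ⊆ Ioc 0 T := Ioc_subset_Ioc_right ht.2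
    have i1 : IntervalIntegrable W volume 0 t :=
      (intervalIntegrable_iff_integrableOn_Ioc_of_le ht.1).2 (hW.mono_set hsub)
    have i2 : IntervalIntegrable W' volume 0 t :=
      (intervalIntegrable_iff_integrableOn_Ioc_of_le ht.1).2 (hW'.mono_set hsub)
    rw [(PPL N).intervalIntegral_comp_comm (i1.sub i2), ← map_add,
      intervalIntegral.integral_sub i1 i2, hUW t ht, hVW t ht]
    congr 1
    abel
  have H : ∀ᵐ t ∂(volume.restrict (Ioc 0 T)),
      ⟪PPL N (W t - W' t), PPL N (U t - V t)⟫ ≤ 2 * ‖F t - G t‖ * ‖PPL N (U t - V t)‖ := by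
    filter_upwards [hUA, hVA] with s h1 h2
    have h3 := isA_mono ha hα hΩ hb h1 h2
    have h4 : ⟪(F s - W s).2 - (G s - W' s).2, (U s).2 - (V s).2⟫ +
        ⟪(F s - W s).1.2 - (G s - W' s).1.2, (U s).1.2 - (V s).1.2⟫ =
        ⟪PPL N (F s - G s), PPL N (U s - V s)⟫ -
          ⟪PPL N (W s - W' s), PPL N (U s - V s)⟫ := by
      rw [← inner_sub_left, ← map_sub]
      have e : F s - G s - (W s - W' s) = (F s - W s) - (G s - W' s) := by abel
      rw [e, PPL_apply, PPL_apply, Pool.Agent.H40.Hx.PP_inner]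
      rfl
    rw [h4] at h3
    have h5 : ⟪PPL N (F s - G s), PPL N (U s - V s)⟫ ≤
        2 * ‖F s - G s‖ * ‖PPL N (U s - V s)‖ := by
      refine (real_inner_le_norm _ _).trans (mul_le_mul_of_nonneg_right ?_ (norm_nonneg _))
      exact Pool.Agent.H40.Hx.PP_norm_le _
    linarith
  have := norm_primitive_le hT hw hψ (fun s => by positivity) hD H t ht
  rw [intervalIntegral.integral_const_mul] at this
  exact this

end Pool.Agent.H25.Hx2
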