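import Pool.Agent.H25.Hx2.E5_Exist
import Pool.Agent.H25.Hx2.E6_Space
import Pool.Agent.H25.Hx2.E7_Dense
import Pool.Agent.H25.Hx2.E8_Force
import Pool.Agent.H25.Hx2.E9_Contr

/-!
# Existence and uniqueness of weak solutions
-/

set_option autoImplicit false

open MeasureTheory Filter Topology Metric Set
open scoped ContDiff RealInnerProductSpace

namespace Pool.Agent.H25.Hx2

open Pool.Agent.H25
open Pool.Agent.H40.Hx (E L2 L2v St IsTest H10 L2on EnergySpace energy IsA PP StrongSol WeakSol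
  BoundedForce)

variable {N : ℕ} {Ω : Set (E N)}

theorem e10_zero_H10 (Ω : Set (E N)) : ((0, 0) : L2 N × L2v N) ∈ H10 Ω := by
  have h := (ES Ω).zero_mem
  exact h.1

theorem e10_force_mem {v : L2 N} (hv : v ∈ L2on Ω) : (((0, 0), v) : St N) ∈ EnergySpace Ω :=
  ⟨e10_zero_H10 Ω, hv⟩

theorem e10_norm_force (v : L2 N) : ‖PP (((0, 0), v) : St N)‖ = ‖v‖ := by
  have h1 : ‖PP (((0, 0), v) : St N)‖ ^ 2 = ‖v‖ ^ 2 := by
    rw [Pool.Agent.H40.Hx.PP_norm_sq, energy]
    simp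
  exact (pow_left_inj₀ (norm_nonneg _) (norm_nonneg _) two_ne_zero).1 h1

theorem e10_sub (v w : L2 N) : (((0, 0), v) : St N) - ((0, 0), w) = ((0, 0), v - w) := by
  rw [Prod.mk_sub_mk, Prod.mk_sub_mk, sub_self, sub_self]

theorem e10_norm_st (v : L2 N) : ‖(((0, 0), v) : St N)‖ = ‖v‖ := by
  rw [Prod.norm_def]
  simp

/-- strong solutions for data in the domain and Lipschitz forces -/
theorem strong_exists {a α : ℝ} (hN : 1 ≤ N) (ha : 0 < a) (hα : 0 < α) (hΩ : IsOpen Ω)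
    (hb : Bornology.IsBounded Ω) {T : ℝ} (hT : 0 < T) {U0 V0 : St N} (h0 : IsA a α Ω U0 V0)
    {F : ℝ → L2 N} {L : ℝ} (hL : 0 ≤ L) (hFm : ∀ t, F t ∈ L2on Ω)
    (hF : ∀ s t, ‖F s - F t‖ ≤ L * |s - t|) :
    ∃ U : ℝ → St N, U 0 = U0 ∧ StrongSol a α Ω T (fun t => ((0, 0), F t)) U ∧
      ∀ t ∈ Icc 0 T, U t ∈ EnergySpace Ω := by
  have hXc : CompleteSpace (XS Ω) := XS_complete hb hN
  obtain ⟨lft, h1, h2, h3⟩ := exists_lift (Ω := Ω) hb hN
  have hM := XS_mmono ha hα hΩ hb h1 h2 h3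
  obtain ⟨m1, m2⟩ := isA_mem h0
  let x0 : XS Ω := ⟨PP U0, ⟨U0, m1, rfl⟩⟩
  let y0 : XS Ω := ⟨PP V0, ⟨V0, m2, rfl⟩⟩
  have e0 : lft x0 = U0 := h3 U0 m1
  have e0' : lft y0 = V0 := h3 V0 m2
  have hxy : IsA a α Ω (lft x0) (lft y0) := by rw [e0, e0']; exact h0
  let F' : ℝ → XS Ω := fun t => ⟨PP (((0, 0), F t) : St N), ⟨_, e10_force_mem (hFm t), rfl⟩⟩
  have hlF : ∀ t, lft (F' t) = (((0, 0), F t) : St N) := fun t => h3 _ (e10_force_mem (hFm t))
  have hF' : ∀ s t, ‖F' s - F' t‖ ≤ L * |s - t| := by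
    intro s t
    refine le_trans (le_of_eq ?_) (hF s t)
    change ‖PP (((0, 0), F s) : St N) - PP (((0, 0), F t) : St N)‖ = _
    rw [← Pool.Agent.H40.Hx.PP_sub]
    rw [e10_sub, e10_norm_force]
  obtain ⟨U, W, hU0, hW, hU, hA⟩ := abs_exists hM hxy hL hF' hT
  have hFc : Continuous F := by
    refine (LipschitzWith.of_dist_le_mul (K := ⟨L, hL⟩) fun s t => ?_).continuous
    rw [dist_eq_norm, Real.dist_eq]
    exact hF s t
  refine ⟨fun t => lft (U t), ?_, ⟨?_, ?_, ?_, fun t => lft (W t), ?_, ?_, ?_⟩, fun t _ => h1 _⟩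
  · simp only [hU0]
    exact e0
  · exact h1 _
  · have hc : Continuous (fun t => (((0, 0), F t) : St N)) :=
      continuous_const.prodMk hFc
    exact (hc.integrableOn_Icc (a := 0) (b := T)).mono_set Ioc_subset_Icc_self
  · exact ae_of_all _ fun t => e10_force_mem (hFm t)
  · exact lft.integrable_comp hW
  · intro t ht
    have hi : IntervalIntegrable W volume 0 t := by
      rw [intervalIntegrable_iff_integrableOn_Ioc_of_le ht.1]
      exact hW.mono_set (Ioc_subset_Ioc le_rfl ht.2)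
    simp only [hU0]
    rw [hU t ht, map_add, ← lft.intervalIntegral_comp_comm hi]
  · filter_upwards [hA] with t ht
    rw [← hlF t, ← map_sub]
    exact ht

theorem e10_strong_cont {a α T : ℝ} (hT : 0 < T) {F U : ℝ → St N}
    (hU : StrongSol a α Ω T F U) : ContinuousOn U (Icc 0 T) := by
  obtain ⟨hU0, hF, hF2, W, hW, hUW, hA⟩ := hU
  have h1 : ContinuousOn (fun t => U 0 + ∫ s in (0 : ℝ)..t, W s) (Icc 0 T) := by
    refine continuousOn_const.add ?_
    have h2 := intervalIntegral.continuousOn_primitive_interval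
      (f := W) (a := 0) (b := T) (μ := volume) (by
        rw [uIcc_of_le hT.le]
        exact (integrableOn_Icc_iff_integrableOn_Ioc).2 hW)
    rwa [uIcc_of_le hT.le] at h2
  exact h1.congr hUW

/-- strong solutions stay in the energy space -/
theorem e10_strong_mem {a α T : ℝ} (hT : 0 < T) {F U : ℝ → St N}
    (hU : StrongSol a α Ω T F U) : ∀ t ∈ Icc 0 T, U t ∈ EnergySpace Ω := by
  have hc := e10_strong_cont hT hU
  obtain ⟨hU0, hF, hF2, W, hW, hUW, hA⟩ := hU
  intro t ht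
  have hcl : (closure (Ioo 0 T ∩ {s | IsA a α Ω (U s) (F s - W s)})) = Icc 0 T := by
    have hT' : (0 : ℝ) ≠ T := hT.ne
    rw [← closure_Ioo hT']
    refine subset_antisymm (closure_mono inter_subset_left) ?_
    refine closure_minimal ?_ isClosed_closure
    intro s hs
    rw [Metric.mem_closure_iff]
    intro ε hε
    by_contra hcon
    push Not at hcon
    have h1 : ∀ᵐ r ∂(volume.restrict (Ioo 0 T)), IsA a α Ω (U r) (F r - W r) :=
      ae_restrict_of_ae_restrict_of_subset Ioo_subset_Ioc_self hA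
    rw [ae_restrict_iff' measurableSet_Ioo] at h1
    have h2 : volume (Ioo 0 T ∩ ball s ε) = 0 := by
      refine measure_mono_null ?_ h1
      intro r hr hr2
      have h3 := hcon r ⟨hr.1, hr2 hr.1⟩
      have h4 := hr.2
      rw [mem_ball, dist_comm] at h4
      linarith
    have h3 : 0 < volume (Ioo 0 T ∩ ball s ε) :=
      (isOpen_Ioo.inter isOpen_ball).measure_pos volume ⟨s, hs, mem_ball_self hε⟩
    exact absurd h2 h3.ne'
  have h5 : t ∈ closure (Ioo 0 T ∩ {s | IsA a α Ω (U s) (F s - W s)}) := by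
    rw [hcl]; exact ht
  rw [mem_closure_iff_seq_limit] at h5
  obtain ⟨s, hs, hst⟩ := h5
  have hsI : ∀ n, s n ∈ Icc 0 T := fun n => Ioo_subset_Icc_self (hs n).1
  have h6 : Tendsto (fun n => U (s n)) atTop (𝓝 (U t)) :=
    (hc t ht).tendsto.comp (tendsto_nhdsWithin_iff.2 ⟨hst, Filter.Eventually.of_forall hsI⟩)
  exact (ES_closed Ω).mem_of_tendsto h6
    (Filter.Eventually.of_forall fun n => (isA_mem (hs n).2).1)

theorem e10_strong_mono {a α T T' : ℝ} (hT' : T' ≤ T) {F U : ℝ → St N}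
    (hU : StrongSol a α Ω T F U) : StrongSol a α Ω T' F U := by
  obtain ⟨hU0, hF, hF2, W, hW, hUW, hA⟩ := hU
  have hs : Ioc 0 T' ⊆ Ioc 0 T := Ioc_subset_Ioc le_rfl hT'
  exact ⟨hU0, hF.mono_set hs, ae_restrict_of_ae_restrict_of_subset hs hF2, W, hW.mono_set hs,
    fun t ht => hUW t ⟨ht.1, ht.2.trans hT'⟩, ae_restrict_of_ae_restrict_of_subset hs hA⟩

theorem e10_int_force {M : ℝ} {f : ℝ → L2 N} (hf : BoundedForce Ω M f) (T : ℝ) :
    IntegrableOn f (Ioc 0 T) := by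
  have hsub : Ioc 0 T ⊆ Ioi (0 : ℝ) := fun s hs => hs.1
  have hle : volume.restrict (Ioc 0 T) ≤ volume.restrict (Ioi (0 : ℝ)) :=
    Measure.restrict_mono hsub le_rfl
  refine Integrable.mono' (g := fun _ => M) ?_ (hf.1.mono_measure hle) (ae_mono hle hf.2.2)
  exact integrableOn_const (by simp)

theorem e10_int_force' {M : ℝ} {f : ℝ → L2 N} (hf : BoundedForce Ω M f) (T : ℝ) :
    IntegrableOn (fun t => (((0, 0), f t) : St N)) (Ioc 0 T) := by
  have h1 := e10_int_force hf T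
  refine h1.norm.mono' ?_ (ae_of_all _ fun t => ?_)
  · exact (aestronglyMeasurable_const (b := ((0, 0) : L2 N × L2v N))).prodMk h1.1
  · rw [e10_norm_st]

theorem weakSol_exists {a α : ℝ} (hN : 1 ≤ N) (ha : 0 < a) (hα : 0 < α) (hΩ : IsOpen Ω)
    (hb : Bornology.IsBounded Ω) {M : ℝ} {f : ℝ → L2 N} (hf : BoundedForce Ω M f) {U0 : St N}
    (hU0 : U0 ∈ EnergySpace Ω) : ∃ U : ℝ → St N, U 0 = U0 ∧ WeakSol a α Ω f U := by
  obtain ⟨C, hC, hPoin⟩ := energy_poincare (Ω := Ω) hb hN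
  -- the approximations
  have hex : ∀ n : ℕ, ∃ (F : ℝ → L2 N) (U : ℝ → St N),
      ‖U0 - U 0‖ < 1 / ((n : ℝ) + 1) ∧
      StrongSol a α Ω ((n : ℝ) + 1) (fun t => ((0, 0), F t)) U ∧
      ∫ t in (0 : ℝ)..((n : ℝ) + 1), ‖F t - f t‖ ≤ 1 / ((n : ℝ) + 1) := by
    intro n
    have hn : (0 : ℝ) < (n : ℝ) + 1 := by positivity
    obtain ⟨F, L, hL, hFm, hFl, hFi⟩ := force_lip hf hn (ε := 1 / ((n : ℝ) + 1)) (by positivity)
    obtain ⟨U', V', hA, hd⟩ := isA_dense (a := a) hα hΩ hU0 (ε := 1 / ((n : ℝ) + 1))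
      (by positivity)
    obtain ⟨U, h1, h2, -⟩ := strong_exists hN ha hα hΩ hb hn hA hL hFm hFl
    exact ⟨F, U, by rw [h1]; exact hd, h2, hFi⟩
  choose F Un hd hS hI using hex
  have hmem : ∀ n : ℕ, ∀ t ∈ Icc 0 ((n : ℝ) + 1), Un n t ∈ EnergySpace Ω := fun n =>
    e10_strong_mem (by positivity) (hS n)
  have hFint : ∀ n : ℕ, ∀ T ≤ (n : ℝ) + 1, IntegrableOn (F n) (Ioc 0 T) := by
    intro n T hT
    have h1 : IntegrableOn (fun t => (((0, 0), F n t) : St N)) (Ioc 0 ((n : ℝ) + 1)) := (hS n).2.1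
    have h2 := ((ContinuousLinearMap.snd ℝ (L2 N × L2v N) (L2 N)).integrable_comp h1)
    exact IntegrableOn.mono_set h2 (Ioc_subset_Ioc le_rfl hT)
  -- Cauchy estimate
  have hcau : ∀ n m : ℕ, ∀ t : ℝ, 0 ≤ t → t ≤ (n : ℝ) + 1 → t ≤ (m : ℝ) + 1 →
      ‖Un n t - Un m t‖ ≤ C * (4 * (1 / ((n : ℝ) + 1) + 1 / ((m : ℝ) + 1))) := by
    intro n m t ht0 htn htm
    have hmn : Un n t - Un m t ∈ EnergySpace Ω :=
      (ES Ω).sub_mem (hmem n t ⟨ht0, htn⟩) (hmem m t ⟨ht0, htm⟩)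
    refine (hPoin _ hmn).trans (mul_le_mul_of_nonneg_left ?_ hC.le)
    have h1 := strong_contr ha.le hα hΩ hb ht0 (e10_strong_mono htn (hS n))
      (e10_strong_mono htm (hS m)) t ⟨ht0, le_rfl⟩
    refine h1.trans ?_
    have h2 : ‖PP (Un n 0 - Un m 0)‖ ≤ 2 * (1 / ((n : ℝ) + 1) + 1 / ((m : ℝ) + 1)) := by
      refine (Pool.Agent.H40.Hx.PP_norm_le _).trans (mul_le_mul_of_nonneg_left ?_ (by norm_num))
      have e1 : Un n 0 - Un m 0 = (U0 - Un m 0) - (U0 - Un n 0) := by abel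
      rw [e1]
      refine (norm_sub_le _ _).trans ?_
      linarith [hd n, hd m]
    have h3 : ∫ s in (0 : ℝ)..t, ‖(((0, 0), F n s) : St N) - ((0, 0), F m s)‖ ≤
        1 / ((n : ℝ) + 1) + 1 / ((m : ℝ) + 1) := by
      have i1 : IntervalIntegrable (fun s => ‖F n s - f s‖) volume 0 t := by
        rw [intervalIntegrable_iff_integrableOn_Ioc_of_le ht0]
        exact ((hFint n t htn).sub (e10_int_force hf t)).norm
      have i2 : IntervalIntegrable (fun s => ‖F m s - f s‖) volume 0 t := by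
        rw [intervalIntegrable_iff_integrableOn_Ioc_of_le ht0]
        exact ((hFint m t htm).sub (e10_int_force hf t)).norm
      have i3 : IntervalIntegrable (fun s => ‖(((0, 0), F n s) : St N) - ((0, 0), F m s)‖)
          volume 0 t := by
        rw [intervalIntegrable_iff_integrableOn_Ioc_of_le ht0]
        have j1 := (hFint n t htn).sub (hFint m t htm)
        refine j1.norm.congr (ae_of_all _ fun s => ?_)
        simp only [Pi.sub_apply]
        rw [e10_sub, e10_norm_st]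
      have e1 : ∫ s in (0 : ℝ)..t, ‖(((0, 0), F n s) : St N) - ((0, 0), F m s)‖ ≤
          ∫ s in (0 : ℝ)..t, (‖F n s - f s‖ + ‖F m s - f s‖) := by
        refine intervalIntegral.integral_mono_on ht0 i3 (i1.add i2) fun s _ => ?_
        rw [e10_sub, e10_norm_st]
        have e2 : F n s - F m s = (F n s - f s) - (F m s - f s) := by abel
        rw [e2]
        exact norm_sub_le _ _
      rw [intervalIntegral.integral_add i1 i2] at e1
      have hmono : ∀ k : ℕ, t ≤ (k : ℝ) + 1 → ∫ s in (0 : ℝ)..t, ‖F k s - f s‖ ≤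
          1 / ((k : ℝ) + 1) := by
        intro k hk
        refine le_trans ?_ (hI k)
        have hk0 : (0 : ℝ) ≤ (k : ℝ) + 1 := by positivity
        rw [intervalIntegral.integral_of_le ht0, intervalIntegral.integral_of_le hk0]
        refine setIntegral_mono_set ?_ (ae_of_all _ fun s => norm_nonneg _)
          (Ioc_subset_Ioc le_rfl hk).eventuallyLE
        exact ((hFint k _ le_rfl).sub (e10_int_force hf _)).norm
      linarith [hmono n htn, hmono m htm]
    linarith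
  -- the limit
  have hconv : ∀ t : ℝ, 0 ≤ t → ∃ u : St N, Tendsto (fun n => Un n t) atTop (𝓝 u) := by
    intro t ht
    refine cauchySeq_tendsto_of_complete ?_
    rw [Metric.cauchySeq_iff']
    intro ε hε
    obtain ⟨n0, hn0⟩ := exists_nat_gt (max t (8 * C / ε))
    have hn1 : t < n0 := (le_max_left _ _).trans_lt hn0
    have hn2 : 8 * C / ε < n0 := (le_max_right _ _).trans_lt hn0
    refine ⟨n0, fun n hn => ?_⟩
    have hnn : (n0 : ℝ) ≤ n := by exact_mod_cast hn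
    have h1 := hcau n n0 t ht (by linarith) (by linarith)
    rw [dist_eq_norm]
    refine h1.trans_lt ?_
    have hn0' : (0 : ℝ) < (n0 : ℝ) + 1 := by positivity
    have h2 : 1 / ((n : ℝ) + 1) ≤ 1 / ((n0 : ℝ) + 1) := one_div_le_one_div_of_le hn0' (by linarith)
    calc C * (4 * (1 / ((n : ℝ) + 1) + 1 / ((n0 : ℝ) + 1)))
        ≤ C * (4 * (1 / ((n0 : ℝ) + 1) + 1 / ((n0 : ℝ) + 1))) := by gcongr
      _ = 8 * C / ((n0 : ℝ) + 1) := by ring
      _ < ε := by
          rw [div_lt_iff₀ hn0']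
          rw [div_lt_iff₀ hε] at hn2
          nlinarith
  let U : ℝ → St N := fun t => if h : 0 ≤ t then (hconv t h).choose else 0
  have hU : ∀ t : ℝ, 0 ≤ t → Tendsto (fun n => Un n t) atTop (𝓝 (U t)) := by
    intro t ht
    simp only [U, dif_pos ht]
    exact (hconv t ht).choose_spec
  have hUe : ∀ n : ℕ, ∀ t : ℝ, 0 ≤ t → t ≤ (n : ℝ) + 1 →
      ‖Un n t - U t‖ ≤ C * (4 * (1 / ((n : ℝ) + 1))) := by
    intro n t ht htn
    have h1 : Tendsto (fun m => ‖Un n t - Un m t‖) atTop (𝓝 ‖Un n t - U t‖) :=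
      (tendsto_const_nhds.sub (hU t ht)).norm
    have h2 : Tendsto (fun m : ℕ => C * (4 * (1 / ((n : ℝ) + 1) + 1 / ((m : ℝ) + 1)))) atTop
        (𝓝 (C * (4 * (1 / ((n : ℝ) + 1) + 0)))) :=
      ((tendsto_one_div_add_atTop_nhds_zero_nat.const_add _).const_mul _).const_mul _
    rw [add_zero] at h2
    refine le_of_tendsto_of_tendsto h1 h2 ?_
    obtain ⟨m0, hm0⟩ := exists_nat_gt t
    filter_upwards [eventually_ge_atTop m0] with m hm
    have hmm : (m0 : ℝ) ≤ m := by exact_mod_cast hm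
    exact hcau n m t ht htn (by linarith)
  refine ⟨U, ?_, ?_⟩
  · refine tendsto_nhds_unique (hU 0 le_rfl) ?_
    rw [tendsto_iff_norm_sub_tendsto_zero]
    refine squeeze_zero (fun n => norm_nonneg _) (fun n => ?_)
      tendsto_one_div_add_atTop_nhds_zero_nat
    rw [norm_sub_rev]
    exact (hd n).le
  · intro T hT
    obtain ⟨n0, hn0⟩ := exists_nat_gt T
    have hTn : ∀ k : ℕ, T ≤ ((n0 + k : ℕ) : ℝ) + 1 := by
      intro k
      push_cast
      have : (0 : ℝ) ≤ k := by positivity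
      linarith
    have hlim : Tendsto (fun k : ℕ => 1 / (((n0 + k : ℕ) : ℝ) + 1)) atTop (𝓝 0) := by
      have h1 := tendsto_one_div_add_atTop_nhds_zero_nat (𝕜 := ℝ)
      have h2 : Tendsto (fun k : ℕ => n0 + k) atTop atTop :=
        tendsto_atTop_mono (fun k => Nat.le_add_left k n0) tendsto_id
      exact h1.comp h2
    refine ⟨fun k t => ((0, 0), F (n0 + k) t), fun k => Un (n0 + k), fun k => ?_, ?_, ?_⟩
    · exact e10_strong_mono (hTn k) (hS (n0 + k))
    · refine squeeze_zero (fun k => ?_) (fun k => ?_) hlim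
      · exact intervalIntegral.integral_nonneg hT.le fun s _ => norm_nonneg _
      · refine le_trans ?_ (hI (n0 + k))
        have e1 : ∀ s, ‖(((0, 0), F (n0 + k) s) : St N) - ((0, 0), f s)‖ =
            ‖F (n0 + k) s - f s‖ := by
          intro s
          rw [e10_sub, e10_norm_st]
        simp only [e1]
        have hk0 : (0 : ℝ) ≤ ((n0 + k : ℕ) : ℝ) + 1 := by positivity
        rw [intervalIntegral.integral_of_le hT.le, intervalIntegral.integral_of_le hk0]
        refine setIntegral_mono_set ?_ (ae_of_all _ fun s => norm_nonneg _)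
          (Ioc_subset_Ioc le_rfl (hTn k)).eventuallyLE
        exact ((hFint (n0 + k) _ le_rfl).sub (e10_int_force hf _)).norm
    · rw [Metric.tendstoUniformlyOn_iff]
      intro ε hε
      have h3 : Tendsto (fun k : ℕ => C * (4 * (1 / (((n0 + k : ℕ) : ℝ) + 1)))) atTop
          (𝓝 (C * (4 * 0))) := (hlim.const_mul 4).const_mul C
      rw [mul_zero, mul_zero] at h3
      filter_upwards [(tendsto_order.1 h3).2 ε hε] with k hk
      intro t ht
      rw [dist_comm, dist_eq_norm]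
      exact (hUe (n0 + k) t ht.1 (ht.2.trans (hTn k))).trans_lt hk

theorem weakSol_unique {a α : ℝ} (hN : 1 ≤ N) (ha : 0 < a) (hα : 0 < α) (hΩ : IsOpen Ω)
    (hb : Bornology.IsBounded Ω) {M : ℝ} {f : ℝ → L2 N} (hf : BoundedForce Ω M f)
    {U V : ℝ → St N} (hU : WeakSol a α Ω f U) (hV : WeakSol a α Ω f V) (h0 : U 0 = V 0) :
    ∀ t ≥ 0, U t = V t := by
  obtain ⟨C, hC, hPoin⟩ := energy_poincare (Ω := Ω) hb hN
  intro t ht
  rcases ht.lt_or_eq with ht0 | ht0
  swap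
  · rw [← ht0, h0]
  obtain ⟨F, U', hS, hFl, hUl⟩ := hU t ht0
  obtain ⟨G, V', hS', hGl, hVl⟩ := hV t ht0
  have hz : (0 : ℝ) ∈ Icc 0 t := ⟨le_rfl, ht0.le⟩
  have hz' : t ∈ Icc 0 t := ⟨ht0.le, le_rfl⟩
  have u1 := hUl.tendsto_at hz
  have u2 := hUl.tendsto_at hz'
  have v1 := hVl.tendsto_at hz
  have v2 := hVl.tendsto_at hz'
  have hfi := e10_int_force' hf t
  have hint : ∀ n, ∫ s in (0 : ℝ)..t, ‖F n s - G n s‖ ≤
      (∫ s in (0 : ℝ)..t, ‖F n s - ((0, 0), f s)‖) +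
        ∫ s in (0 : ℝ)..t, ‖G n s - ((0, 0), f s)‖ := by
    intro n
    have i1 : IntervalIntegrable (fun s => ‖F n s - (((0, 0), f s) : St N)‖) volume 0 t := by
      rw [intervalIntegrable_iff_integrableOn_Ioc_of_le ht0.le]
      exact ((hS n).2.1.sub hfi).norm
    have i2 : IntervalIntegrable (fun s => ‖G n s - (((0, 0), f s) : St N)‖) volume 0 t := by
      rw [intervalIntegrable_iff_integrableOn_Ioc_of_le ht0.le]
      exact ((hS' n).2.1.sub hfi).norm
    have i3 : IntervalIntegrable (fun s => ‖F n s - G n s‖) volume 0 t := by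
      rw [intervalIntegrable_iff_integrableOn_Ioc_of_le ht0.le]
      exact ((hS n).2.1.sub (hS' n).2.1).norm
    rw [← intervalIntegral.integral_add i1 i2]
    refine intervalIntegral.integral_mono_on ht0.le i3 (i1.add i2) fun s _ => ?_
    have e2 : F n s - G n s = (F n s - ((0, 0), f s)) - (G n s - ((0, 0), f s)) := by abel
    rw [e2]
    exact norm_sub_le _ _
  have hkey : ∀ n, ‖U' n t - V' n t‖ ≤ C * (‖PP (U' n 0 - V' n 0)‖ +
      2 * ((∫ s in (0 : ℝ)..t, ‖F n s - ((0, 0), f s)‖) +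
        ∫ s in (0 : ℝ)..t, ‖G n s - ((0, 0), f s)‖)) := by
    intro n
    have hmn : U' n t - V' n t ∈ EnergySpace Ω :=
      (ES Ω).sub_mem (e10_strong_mem ht0 (hS n) t hz') (e10_strong_mem ht0 (hS' n) t hz')
    refine (hPoin _ hmn).trans (mul_le_mul_of_nonneg_left ?_ hC.le)
    refine (strong_contr ha.le hα hΩ hb ht0.le (hS n) (hS' n) t hz').trans ?_
    linarith [hint n]
  have hlim : Tendsto (fun n => C * (‖PP (U' n 0 - V' n 0)‖ +
      2 * ((∫ s in (0 : ℝ)..t, ‖F n s - ((0, 0), f s)‖) +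
        ∫ s in (0 : ℝ)..t, ‖G n s - ((0, 0), f s)‖))) atTop (𝓝 (C * (0 + 2 * (0 + 0)))) := by
    refine ((Tendsto.add ?_ ((hFl.add hGl).const_mul 2))).const_mul C
    refine squeeze_zero (fun n => norm_nonneg _)
      (fun n => Pool.Agent.H40.Hx.PP_norm_le (U' n 0 - V' n 0)) ?_
    have h1 : Tendsto (fun n => ‖U' n 0 - V' n 0‖) atTop (𝓝 ‖U 0 - V 0‖) := (u1.sub v1).norm
    rw [h0, sub_self, norm_zero] at h1
    simpa using h1.const_mul 2
  have h2 : Tendsto (fun n => ‖U' n t - V' n t‖) atTop (𝓝 ‖U t - V t‖) := (u2.sub v2).norm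
  have h3 := le_of_tendsto_of_tendsto' h2 hlim hkey
  have h4 : ‖U t - V t‖ ≤ 0 := by simpa using h3
  exact sub_eq_zero.1 (norm_le_zero_iff.1 h4)

end Pool.Agent.H25.Hx2
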