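import Pool.Agent.H25.Hx2.E5_Exist
import Pool.Agent.H25.Hx2.E6_Space

/-!
# Strong solutions for data in the domain and Lipschitz forces
-/

set_option autoImplicit false

open MeasureTheory Filter Topology Metric Set
open scoped ContDiff RealInnerProductSpace

namespace Pool.Agent.H25.Hx2

open Pool.Agent.H25
open Pool.Agent.H40.Hx (E L2 L2v St IsTest H10 L2on EnergySpace energy IsA PP StrongSol WeakSol
  BoundedForce)

variable {N : ℕ} {Ω : Set (E N)}

/-- strong solutions for data in the domain and Lipschitz forces -/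
theorem strong_exists {a α : ℝ} (hN : 1 ≤ N) (ha : 0 < a) (hα : 0 < α) (hΩ : IsOpen Ω)
    (hb : Bornology.IsBounded Ω) {T : ℝ} (hT : 0 < T) {U0 V0 : St N} (h0 : IsA a α Ω U0 V0)
    {F : ℝ → L2 N} {L : ℝ} (hL : 0 ≤ L) (hFm : ∀ t, F t ∈ L2on Ω)
    (hF : ∀ s t, ‖F s - F t‖ ≤ L * |s - t|) :
    ∃ U : ℝ → St N, U 0 = U0 ∧ StrongSol a α Ω T (fun t => ((0, 0), F t)) U ∧
      ∀ t ∈ Icc 0 T, U t ∈ EnergySpace Ω := by
  have := XS_complete (Ω := Ω) hb hN
  obtain ⟨lft, h1, h2, h3⟩ := exists_lift (Ω := Ω) hb hN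
  have hA := XS_mmono ha hα hΩ hb h1 h2 h3
  obtain ⟨hU0, hV0⟩ := isA_mem h0
  have hFE : ∀ t, (((0, 0), F t) : St N) ∈ EnergySpace Ω := fun t =>
    ⟨(ES Ω).zero_mem.1, hFm t⟩
  set x0 : XS Ω := ⟨PP U0, ⟨U0, hU0, rfl⟩⟩ with hx0
  set y0 : XS Ω := ⟨PP V0, ⟨V0, hV0, rfl⟩⟩ with hy0
  set f : ℝ → XS Ω := fun t => ⟨PP (((0, 0), F t) : St N), ⟨_, hFE t, rfl⟩⟩ with hf
  have hlf : ∀ t, lft (f t) = (((0, 0), F t) : St N) := fun t => h3 _ (hFE t)
  have h4 : IsA a α Ω (lft x0) (lft y0) := by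
    rw [hx0, hy0, h3 U0 hU0, h3 V0 hV0]
    exact h0
  have h5 : ∀ s t, ‖f s - f t‖ ≤ L * |s - t| := by
    intro s t
    refine le_trans (le_of_eq ?_) (hF s t)
    have e1 : ‖f s - f t‖ = ‖PP ((((0, 0), F s) : St N) - ((0, 0), F t))‖ := rfl
    rw [e1]
    have e2 := Pool.Agent.H40.Hx.PP_norm_sq ((((0, 0), F s) : St N) - ((0, 0), F t))
    have e3 : energy ((((0, 0), F s) : St N) - ((0, 0), F t)) = ‖F s - F t‖ ^ 2 := by
      simp [energy]
    rw [e3] at e2
    exact (pow_left_inj₀ (norm_nonneg _) (norm_nonneg _) two_ne_zero).1 e2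
  obtain ⟨U, W, hU00, hWi, hUW, hAe⟩ := abs_exists hA h4 hL h5 hT
  have hWi' : IntegrableOn (fun t => lft (W t)) (Ioc 0 T) := lft.integrable_comp hWi
  refine ⟨fun t => lft (U t), ?_, ⟨?_, ?_, ae_of_all _ hFE, fun t => lft (W t), hWi', ?_, ?_⟩,
    fun t _ => h1 _⟩
  · simp only
    rw [hU00, hx0, h3 U0 hU0]
  · simp only
    exact h1 _
  · have cF : Continuous F := by
      have : LipschitzWith ⟨L, hL⟩ F := LipschitzWith.of_dist_le_mul fun s t => by
        rw [dist_eq_norm, Real.dist_eq]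
        exact hF s t
      exact this.continuous
    have cF' : Continuous (fun t => (((0, 0), F t) : St N)) := continuous_const.prodMk cF
    exact (cF'.continuousOn.integrableOn_compact isCompact_Icc).mono_set Ioc_subset_Icc_self
  · intro t ht
    simp only
    rw [hUW t ht, hU00, map_add]
    congr 1
    have h6 : IntervalIntegrable W volume 0 t := by
      rw [intervalIntegrable_iff_integrableOn_Ioc_of_le ht.1]
      exact hWi.mono_set (Ioc_subset_Ioc_right ht.2)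
    exact (lft.intervalIntegral_comp_comm h6).symm
  · filter_upwards [hAe] with t ht
    rw [map_sub, hlf] at ht
    exact ht

end Pool.Agent.H25.Hx2
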