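import Mathlib

/-!
# Maximal monotone relations in a Hilbert space: resolvent, Minty's lemma
-/

set_option autoImplicit false

open MeasureTheory Filter Topology Set
open scoped RealInnerProductSpace

namespace Pool.Agent.H25.Hx2

variable {X : Type*} [NormedAddCommGroup X] [InnerProductSpace ℝ X]

/-- maximal monotone relations (in Minty's form) -/
structure MMono (A : X → X → Prop) : Prop where
  mono : ∀ x y x' y', A x y → A x' y' → 0 ≤ ⟪y - y', x - x'⟫
  range : ∀ h : ℝ, 0 < h → ∀ f, ∃ x y, A x y ∧ x + h • y = f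

variable {A : X → X → Prop}

/-- the resolvent `(1 + h A)⁻¹` -/
noncomputable def res (hA : MMono A) {h : ℝ} (hh : 0 < h) (f : X) : X :=
  (hA.range h hh f).choose

theorem res_spec (hA : MMono A) {h : ℝ} (hh : 0 < h) (f : X) :
    A (res hA hh f) (h⁻¹ • (f - res hA hh f)) := by
  obtain ⟨y, h1, h2⟩ := (hA.range h hh f).choose_spec
  have h4 : f - res hA hh f = h • y := sub_eq_of_eq_add' h2.symm
  have h3 : h⁻¹ • (f - res hA hh f) = y := by
    rw [h4, smul_smul, inv_mul_cancel₀ hh.ne', one_smul]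
  rw [h3]
  exact h1

theorem res_lip (hA : MMono A) {h : ℝ} (hh : 0 < h) (f k : X) :
    ‖res hA hh f - res hA hh k‖ ≤ ‖f - k‖ := by
  have h1 := hA.mono _ _ _ _ (res_spec hA hh f) (res_spec hA hh k)
  set x := res hA hh f with hx
  set x' := res hA hh k with hx'
  have h2 : h⁻¹ • (f - x) - h⁻¹ • (k - x') = h⁻¹ • ((f - k) - (x - x')) := by
    rw [← smul_sub]
    congr 1
    abel
  rw [h2, real_inner_smul_left, inner_sub_left, real_inner_self_eq_norm_sq] at h1
  have h3 : 0 ≤ ⟪f - k, x - x'⟫ - ‖x - x'‖ ^ 2 := by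
    by_contra hc
    push Not at hc
    have : h⁻¹ * (⟪f - k, x - x'⟫ - ‖x - x'‖ ^ 2) < 0 :=
      mul_neg_of_pos_of_neg (inv_pos.2 hh) hc
    linarith
  have h4 := real_inner_le_norm (f - k) (x - x')
  by_cases h5 : ‖x - x'‖ = 0
  · rw [h5]; exact norm_nonneg _
  · have h6 : 0 < ‖x - x'‖ := lt_of_le_of_ne (norm_nonneg _) (Ne.symm h5)
    nlinarith

theorem res_eq (hA : MMono A) {h : ℝ} (hh : 0 < h) {x y : X} (hxy : A x y) :
    res hA hh (x + h • y) = x := by
  have h1 := hA.mono _ _ _ _ (res_spec hA hh (x + h • y)) hxy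
  set x' := res hA hh (x + h • y) with hx'
  have h2 : h⁻¹ • (x + h • y - x') - y = -(h⁻¹ • (x' - x)) := by
    rw [show x + h • y - x' = (x - x') + h • y by abel, smul_add, smul_smul,
      inv_mul_cancel₀ hh.ne', one_smul, ← smul_neg, neg_sub]
    abel
  rw [h2, inner_neg_left, real_inner_smul_left, real_inner_self_eq_norm_sq] at h1
  have h3 : ‖x' - x‖ ^ 2 ≤ 0 := by
    by_contra hc
    push Not at hc
    have : 0 < h⁻¹ * ‖x' - x‖ ^ 2 := mul_pos (inv_pos.2 hh) hc
    linarith
  have h4 : ‖x' - x‖ = 0 := by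
    have := sq_nonneg ‖x' - x‖
    exact pow_eq_zero_iff (two_ne_zero) |>.1 (le_antisymm h3 this)
  exact sub_eq_zero.1 (norm_eq_zero.1 h4)

/-- the resolvent detects the graph -/
theorem A_of_res (hA : MMono A) {u w : X} (h : res hA one_pos (u + w) = u) : A u w := by
  have h1 := res_spec hA one_pos (u + w)
  rw [h, inv_one, one_smul, add_sub_cancel_left] at h1
  exact h1

/-- `V = (1 + A)⁻¹ f` satisfies `A V (f - V)` -/
theorem res_one (hA : MMono A) (f : X) :
    A (res hA one_pos f) (f - res hA one_pos f) := by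
  have := res_spec hA one_pos f
  rwa [inv_one, one_smul] at this

end Pool.Agent.H25.Hx2
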