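import Pool.Agent.H25.Hx2.E1_Abs

/-!
# The implicit Euler scheme
-/

set_option autoImplicit false

open MeasureTheory Filter Topology Set
open scoped RealInnerProductSpace

namespace Pool.Agent.H25.Hx2

variable {X : Type*} [NormedAddCommGroup X] [InnerProductSpace ℝ X]
  {A : X → X → Prop}

/-- the Euler iterates -/
noncomputable def eul (hA : MMono A) {h : ℝ} (hh : 0 < h) (F : ℝ → X) (x0 : X) : ℕ → X
  | 0 => x0
  | k + 1 => res hA hh (eul hA hh F x0 k + h • F (((k + 1 : ℕ) : ℝ) * h))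

theorem eul_spec (hA : MMono A) {h : ℝ} (hh : 0 < h) (F : ℝ → X) (x0 : X) (k : ℕ) :
    A (eul hA hh F x0 (k + 1)) (F (((k + 1 : ℕ) : ℝ) * h) -
      h⁻¹ • (eul hA hh F x0 (k + 1) - eul hA hh F x0 k)) := by
  have h1 := res_spec hA hh (eul hA hh F x0 k + h • F (((k + 1 : ℕ) : ℝ) * h))
  have h2 : F (((k + 1 : ℕ) : ℝ) * h) - h⁻¹ • (eul hA hh F x0 (k + 1) - eul hA hh F x0 k) =
      h⁻¹ • (eul hA hh F x0 k + h • F (((k + 1 : ℕ) : ℝ) * h) - eul hA hh F x0 (k + 1)) := by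
    have h3 : F (((k + 1 : ℕ) : ℝ) * h) = h⁻¹ • (h • F (((k + 1 : ℕ) : ℝ) * h)) := by
      rw [smul_smul, inv_mul_cancel₀ hh.ne', one_smul]
    rw [smul_sub, smul_sub, smul_add, ← h3]
    abel
  rw [h2]
  exact h1

theorem eul_bound (hA : MMono A) {h : ℝ} (hh : 0 < h) {F : ℝ → X} {x0 y0 : X} (h0 : A x0 y0)
    {L : ℝ} (hF : ∀ s t, ‖F s - F t‖ ≤ L * |s - t|) (k : ℕ) :
    ‖eul hA hh F x0 (k + 1) - eul hA hh F x0 k‖ ≤
      h * (‖F 0 - y0‖ + L * (((k + 1 : ℕ) : ℝ) * h)) := by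
  induction k with
  | zero =>
    have h1 := res_eq hA hh h0
    have h2 := res_lip hA hh (x0 + h • F (((0 + 1 : ℕ) : ℝ) * h)) (x0 + h • y0)
    rw [h1] at h2
    refine h2.trans ?_
    have h3 : x0 + h • F (((0 + 1 : ℕ) : ℝ) * h) - (x0 + h • y0) =
        h • ((F 0 - y0) + (F (((0 + 1 : ℕ) : ℝ) * h) - F 0)) := by
      rw [add_sub_add_left_eq_sub, ← smul_sub]
      congr 1
      abel
    rw [h3, norm_smul, Real.norm_of_nonneg hh.le]
    refine mul_le_mul_of_nonneg_left ((norm_add_le _ _).trans ?_) hh.le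
    have h4 := hF (((0 + 1 : ℕ) : ℝ) * h) 0
    have h5 : 0 ≤ ((0 + 1 : ℕ) : ℝ) * h := by positivity
    rw [sub_zero, abs_of_nonneg h5] at h4
    linarith
  | succ k ih =>
    have h2 := res_lip hA hh
      (eul hA hh F x0 (k + 1) + h • F (((k + 1 + 1 : ℕ) : ℝ) * h))
      (eul hA hh F x0 k + h • F (((k + 1 : ℕ) : ℝ) * h))
    refine (show ‖eul hA hh F x0 (k + 1 + 1) - eul hA hh F x0 (k + 1)‖ ≤ _ from h2).trans ?_
    have h3 : eul hA hh F x0 (k + 1) + h • F (((k + 1 + 1 : ℕ) : ℝ) * h) -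
        (eul hA hh F x0 k + h • F (((k + 1 : ℕ) : ℝ) * h)) =
        (eul hA hh F x0 (k + 1) - eul hA hh F x0 k) +
          h • (F (((k + 1 + 1 : ℕ) : ℝ) * h) - F (((k + 1 : ℕ) : ℝ) * h)) := by
      rw [smul_sub]
      abel
    rw [h3]
    refine (norm_add_le _ _).trans ?_
    rw [norm_smul, Real.norm_of_nonneg hh.le]
    have h4 := hF (((k + 1 + 1 : ℕ) : ℝ) * h) (((k + 1 : ℕ) : ℝ) * h)
    have h5 : ((k + 1 + 1 : ℕ) : ℝ) * h - ((k + 1 : ℕ) : ℝ) * h = h := by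
      push_cast
      ring
    rw [h5, abs_of_pos hh] at h4
    have h6 := mul_le_mul_of_nonneg_left h4 hh.le
    have h7 : h * (‖F 0 - y0‖ + L * (((k + 1 + 1 : ℕ) : ℝ) * h)) =
        h * (‖F 0 - y0‖ + L * (((k + 1 : ℕ) : ℝ) * h)) + h * (L * h) := by
      push_cast
      ring
    rw [h7]
    linarith

/-- approximate solutions: `w = u'`, `v` piecewise constant, `A v (F(r t) - w)` -/
theorem euler [CompleteSpace X] (hA : MMono A) {x0 y0 : X} (h0 : A x0 y0) {F : ℝ → X} {L : ℝ} (hL : 0 ≤ L)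
    (hF : ∀ s t, ‖F s - F t‖ ≤ L * |s - t|) {T : ℝ} (hT : 0 < T) (n : ℕ) :
    ∃ (v w : ℝ → X) (ρ : ℝ → ℝ),
      StronglyMeasurable v ∧ StronglyMeasurable w ∧ StronglyMeasurable (fun t => F (ρ t)) ∧
      (∀ t ∈ Ioc 0 T, |ρ t - t| ≤ T / (n + 1)) ∧
      (∀ t ∈ Ioc 0 T, ‖w t‖ ≤ ‖F 0 - y0‖ + L * T) ∧
      (∀ t ∈ Ioc 0 T, A (v t) (F (ρ t) - w t)) ∧
      ∀ t ∈ Ioc 0 T, ‖x0 + (∫ s in (0 : ℝ)..t, w s) - v t‖ ≤
        (‖F 0 - y0‖ + L * T) * (T / (n + 1)) := by
  have hn : (0 : ℝ) < n + 1 := by positivity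
  set h : ℝ := T / (n + 1) with hhd
  have hh : 0 < h := div_pos hT hn
  have hhT : ((n : ℝ) + 1) * h = T := by rw [hhd]; field_simp
  set M : ℝ := ‖F 0 - y0‖ + L * T with hM
  set u : ℕ → X := eul hA hh F x0 with hu
  set κ : ℝ → ℕ := fun t => ⌈t / h⌉₊ with hκ
  have hκm : Measurable κ := Nat.measurable_ceil.comp (measurable_id.div_const h)
  set v : ℝ → X := fun t => u (κ t) with hv
  set w : ℝ → X := fun t => h⁻¹ • (u (κ t) - u (κ t - 1)) with hw
  have mv : StronglyMeasurable v :=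
    (StronglyMeasurable.of_discrete (f := u)).comp_measurable hκm
  have mw : StronglyMeasurable w :=
    (StronglyMeasurable.of_discrete (f := fun k : ℕ => h⁻¹ • (u k - u (k - 1)))).comp_measurable
      hκm
  have mF : StronglyMeasurable (fun t => F ((κ t : ℝ) * h)) :=
    (StronglyMeasurable.of_discrete (f := fun k : ℕ => F ((k : ℝ) * h))).comp_measurable hκm
  -- the index
  have hidx : ∀ t ∈ Ioc 0 T, ∃ k : ℕ, k < n + 1 ∧ κ t = k + 1 ∧ (k : ℝ) * h < t ∧
      t ≤ ((k : ℝ) + 1) * h := by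
    intro t ht
    have h1 : 0 < κ t := Nat.ceil_pos.2 (div_pos ht.1 hh)
    obtain ⟨k, hk⟩ := Nat.exists_eq_succ_of_ne_zero h1.ne'
    refine ⟨k, ?_, hk, ?_, ?_⟩
    · have h2 : κ t ≤ n + 1 := by
        refine Nat.ceil_le.2 ?_
        rw [div_le_iff₀ hh]
        push_cast
        rw [hhT]
        exact ht.2
      omega
    · have h2 : (k : ℝ) < t / h := by
        refine Nat.lt_ceil.1 ?_
        have : ⌈t / h⌉₊ = k + 1 := hk
        omega
      rwa [lt_div_iff₀ hh] at h2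
    · have h2 : t / h ≤ (κ t : ℝ) := Nat.le_ceil _
      rw [hk, div_le_iff₀ hh] at h2
      push_cast at h2
      exact h2
  have hkey : ∀ (k : ℕ) (t : ℝ), (k : ℝ) * h < t → t ≤ ((k : ℝ) + 1) * h → κ t = k + 1 := by
    intro k t h1 h2
    refine le_antisymm (Nat.ceil_le.2 ?_) (Nat.lt_ceil.2 ?_)
    · rw [div_le_iff₀ hh]
      push_cast
      exact h2
    · rwa [lt_div_iff₀ hh]
  have hub : ∀ k < n + 1, ‖u (k + 1) - u k‖ ≤ h * M := by
    intro k hk
    refine (eul_bound hA hh h0 hF k).trans (mul_le_mul_of_nonneg_left ?_ hh.le)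
    have h1 : ((k + 1 : ℕ) : ℝ) * h ≤ T := by
      rw [← hhT]
      refine mul_le_mul_of_nonneg_right ?_ hh.le
      exact_mod_cast hk
    have := mul_le_mul_of_nonneg_left h1 hL
    linarith
  have hM0 : 0 ≤ M := by positivity
  have hwb : ∀ t ∈ Ioc 0 T, ‖w t‖ ≤ M := by
    intro t ht
    obtain ⟨k, hk, hκt, -, -⟩ := hidx t ht
    simp only [hw]
    rw [hκt, Nat.add_sub_cancel, norm_smul, norm_inv, Real.norm_of_nonneg hh.le,
      inv_mul_le_iff₀ hh]
    exact hub k hk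
  have hwi : ∀ a b : ℝ, 0 ≤ a → b ≤ T → a ≤ b → IntervalIntegrable w volume a b := by
    intro a b ha hb hab
    rw [intervalIntegrable_iff_integrableOn_Ioc_of_le hab]
    refine Measure.integrableOn_of_bounded (M := M) (by simp) mw.aestronglyMeasurable ?_
    refine (ae_restrict_iff' measurableSet_Ioc).2 (ae_of_all _ fun t ht => ?_)
    exact hwb t ⟨lt_of_le_of_lt ha ht.1, ht.2.trans hb⟩
  have hpiece : ∀ (k : ℕ) (t : ℝ), (k : ℝ) * h ≤ t → t ≤ ((k : ℝ) + 1) * h →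
      ∫ s in ((k : ℝ) * h)..t, w s = (t - (k : ℝ) * h) • (h⁻¹ • (u (k + 1) - u k)) := by
    intro k t h1 h2
    rw [← intervalIntegral.integral_const]
    refine intervalIntegral.integral_congr_ae (ae_of_all _ fun s hs => ?_)
    rw [uIoc_of_le h1] at hs
    have := hkey k s hs.1 (hs.2.trans h2)
    simp only [hw]
    rw [this, Nat.add_sub_cancel]
  have hnode : ∀ k : ℕ, k ≤ n + 1 → x0 + (∫ s in (0 : ℝ)..((k : ℝ) * h), w s) = u k := by
    intro k
    induction k with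
    | zero =>
      intro _
      simp [hu, eul]
    | succ k ih =>
      intro hk
      have h1 := ih (by omega)
      have h2 : (k : ℝ) * h ≤ ((k + 1 : ℕ) : ℝ) * h := by
        refine mul_le_mul_of_nonneg_right ?_ hh.le
        exact_mod_cast Nat.le_succ k
      have h3 : ((k + 1 : ℕ) : ℝ) * h ≤ T := by
        rw [← hhT]
        refine mul_le_mul_of_nonneg_right ?_ hh.le
        exact_mod_cast hk
      have h4 : 0 ≤ (k : ℝ) * h := by positivity
      rw [← intervalIntegral.integral_add_adjacent_intervals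
        (hwi 0 ((k : ℝ) * h) le_rfl (h2.trans h3) h4)
        (hwi ((k : ℝ) * h) (((k + 1 : ℕ) : ℝ) * h) h4 h3 h2), ← add_assoc, h1,
        hpiece k _ h2 (by push_cast; exact le_rfl)]
      have h5 : ((k + 1 : ℕ) : ℝ) * h - (k : ℝ) * h = h := by
        push_cast
        ring
      rw [h5, smul_smul, mul_inv_cancel₀ hh.ne', one_smul]
      abel
  refine ⟨v, w, fun t => (κ t : ℝ) * h, mv, mw, mF, ?_, hwb, ?_, ?_⟩
  · intro t ht
    obtain ⟨k, hk, hκt, h1, h2⟩ := hidx t ht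
    simp only
    rw [hκt]
    push_cast
    rw [abs_of_nonneg (by linarith)]
    nlinarith
  · intro t ht
    obtain ⟨k, hk, hκt, h1, h2⟩ := hidx t ht
    have h3 := eul_spec hA hh F x0 k
    simp only [hv, hw]
    rw [hκt, Nat.add_sub_cancel]
    exact h3
  · intro t ht
    obtain ⟨k, hk, hκt, h1, h2⟩ := hidx t ht
    have h4 : 0 ≤ (k : ℝ) * h := by positivity
    rw [← intervalIntegral.integral_add_adjacent_intervals
        (hwi 0 ((k : ℝ) * h) le_rfl (h1.le.trans ht.2) h4)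
        (hwi ((k : ℝ) * h) t h4 ht.2 h1.le), ← add_assoc, hnode k (by omega),
        hpiece k t h1.le h2]
    simp only [hv]
    rw [hκt]
    have h5 : u k + (t - (k : ℝ) * h) • h⁻¹ • (u (k + 1) - u k) - u (k + 1) =
        ((t - (k : ℝ) * h) * h⁻¹ - 1) • (u (k + 1) - u k) := by
      module
    rw [h5, norm_smul]
    have h6 : |(t - (k : ℝ) * h) * h⁻¹ - 1| ≤ 1 := by
      have h7 : 0 ≤ (t - (k : ℝ) * h) * h⁻¹ := mul_nonneg (by linarith) (inv_nonneg.2 hh.le)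
      have h8 : (t - (k : ℝ) * h) * h⁻¹ ≤ 1 := by
        rw [← div_eq_mul_inv, div_le_one hh]
        linarith
      rw [abs_le]
      constructor <;> linarith
    calc ‖(t - (k : ℝ) * h) * h⁻¹ - 1‖ * ‖u (k + 1) - u k‖ ≤ 1 * (h * M) :=
          mul_le_mul h6 (hub k hk) (norm_nonneg _) zero_le_one
      _ = M * h := by ring

end Pool.Agent.H25.Hx2
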