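import Mathlib

/-!
# Primitives with values in a Hilbert space
-/

set_option autoImplicit false

open MeasureTheory Filter Topology Set
open scoped RealInnerProductSpace

namespace Pool.Agent.H25.Hx2

variable {X : Type*} [NormedAddCommGroup X] [InnerProductSpace ℝ X] [CompleteSpace X]

/-- the energy identity for a primitive of a continuous function -/
theorem sq_primitive_cont {g : ℝ → X} (hg : Continuous g) (D0 : X) (t : ℝ) :
    ‖D0 + ∫ s in (0 : ℝ)..t, g s‖ ^ 2 =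
      ‖D0‖ ^ 2 + 2 * ∫ s in (0 : ℝ)..t, ⟪g s, D0 + ∫ r in (0 : ℝ)..s, g r⟫ := by
  have hJ : ∀ s : ℝ, HasDerivAt (fun u => D0 + ∫ r in (0 : ℝ)..u, g r) (g s) s := fun s =>
    (intervalIntegral.integral_hasDerivAt_right (hg.intervalIntegrable _ _)
      (hg.stronglyMeasurableAtFilter _ _) hg.continuousAt).const_add D0
  have hJc : Continuous (fun u => D0 + ∫ r in (0 : ℝ)..u, g r) :=
    continuous_iff_continuousAt.2 fun s => (hJ s).continuousAt
  have h2 : ∀ s : ℝ, HasDerivAt (fun u => ‖D0 + ∫ r in (0 : ℝ)..u, g r‖ ^ 2)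
      (2 * ⟪g s, D0 + ∫ r in (0 : ℝ)..s, g r⟫) s := by
    intro s
    have := (hJ s).norm_sq
    rwa [real_inner_comm] at this
  have h3 := intervalIntegral.integral_eq_sub_of_hasDerivAt (a := 0) (b := t)
    (fun s _ => h2 s)
    ((continuous_const.mul (hg.inner hJc)).intervalIntegrable _ _)
  rw [intervalIntegral.integral_const_mul] at h3
  rw [h3]
  simp

/-- a primitive is continuous -/
theorem continuousOn_prim {Y : Type*} [NormedAddCommGroup Y] [NormedSpace ℝ Y] [CompleteSpace Y]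
    {T : ℝ} (hT : 0 ≤ T) {f : ℝ → Y} (c : Y) (hf : IntegrableOn f (Ioc 0 T)) :
    ContinuousOn (fun s => c + ∫ r in (0 : ℝ)..s, f r) (Icc 0 T) := by
  refine continuousOn_const.add ?_
  have := intervalIntegral.continuousOn_primitive_interval (μ := volume) (f := f) (a := 0)
    (b := T) (by rwa [uIcc_of_le hT, integrableOn_Icc_iff_integrableOn_Ioc])
  rwa [uIcc_of_le hT] at this

/-- energy identity for primitives -/
theorem sq_primitive {T : ℝ} (hT : 0 ≤ T) {w D : ℝ → X} {D0 : X} (hw : IntegrableOn w (Ioc 0 T))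
    (hD : ∀ t ∈ Icc 0 T, D t = D0 + ∫ s in (0 : ℝ)..t, w s) :
    ∀ t ∈ Icc 0 T, ‖D t‖ ^ 2 = ‖D0‖ ^ 2 + 2 * ∫ s in (0 : ℝ)..t, ⟪w s, D s⟫ := by
  intro t ht
  have ht0 : 0 ≤ t := ht.1
  have hsub : ∀ s ∈ Icc 0 T, Ioc 0 s ⊆ Ioc 0 T := fun s hs => Ioc_subset_Ioc_right hs.2
  have hwi : ∀ s ∈ Icc 0 T, IntervalIntegrable w volume 0 s := fun s hs =>
    (intervalIntegrable_iff_integrableOn_Ioc_of_le hs.1).2 (hw.mono_set (hsub s hs))
  -- continuity of `D` on `[0, T]`
  have hDc : ContinuousOn D (Icc 0 T) := (continuousOn_prim hT D0 hw).congr hD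
  set W : ℝ := ∫ s in Ioc 0 T, ‖w s‖ with hW
  have hW0 : 0 ≤ W := integral_nonneg fun _ => norm_nonneg _
  set M : ℝ := ‖D0‖ + W with hM
  have hM0 : 0 ≤ M := by positivity
  have hDM : ∀ s ∈ Icc 0 T, ‖D s‖ ≤ M := by
    intro s hs
    rw [hD s hs]
    refine (norm_add_le _ _).trans (add_le_add le_rfl ?_)
    rw [intervalIntegral.integral_of_le hs.1]
    refine (norm_integral_le_integral_norm _).trans ?_
    exact setIntegral_mono_set hw.norm (ae_of_all _ fun _ => norm_nonneg _)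
      (hsub s hs).eventuallyLE
  -- the error bound
  have key : ∀ ε : ℝ, 0 < ε → ε ≤ 1 →
      |‖D t‖ ^ 2 - (‖D0‖ ^ 2 + 2 * ∫ s in (0 : ℝ)..t, ⟪w s, D s⟫)| ≤
        ε * (4 * M + 2 * W + 3) := by
    intro ε hε hε1
    obtain ⟨g, hg1, hg2⟩ := hw.integrable.exists_boundedContinuous_integral_sub_le hε
    have hgc : Continuous (g : ℝ → X) := g.continuous
    have hJ : ∀ s ∈ Icc 0 T, ‖D s - (D0 + ∫ r in (0 : ℝ)..s, g r)‖ ≤ ε := by
      intro s hs
      rw [hD s hs, add_sub_add_left_eq_sub,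
        ← intervalIntegral.integral_sub (hwi s hs) (hgc.intervalIntegrable _ _),
        intervalIntegral.integral_of_le hs.1]
      refine (norm_integral_le_integral_norm _).trans (le_trans ?_ hg1)
      exact setIntegral_mono_set (hw.sub hg2).norm (ae_of_all _ fun _ => norm_nonneg _)
        (hsub s hs).eventuallyLE
    have hJc : Continuous (fun u => D0 + ∫ r in (0 : ℝ)..u, g r) :=
      continuous_const.add (intervalIntegral.continuous_primitive
        (fun a b => hgc.intervalIntegrable a b) 0)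
    have hG := sq_primitive_cont hgc D0 t
    -- first difference
    have h1 : |‖D t‖ ^ 2 - ‖D0 + ∫ r in (0 : ℝ)..t, g r‖ ^ 2| ≤ ε * (2 * M + 1) := by
      have a1 := hJ t ht
      have a2 := hDM t ht
      set P := ‖D t‖
      set Q := ‖D0 + ∫ r in (0 : ℝ)..t, g r‖
      have a3 : |P - Q| ≤ ε := (abs_norm_sub_norm_le _ _).trans a1
      have a4 : Q ≤ M + 1 := by
        have := (abs_le.1 a3).1
        linarith
      have a5 : 0 ≤ P := norm_nonneg _
      have a6 : 0 ≤ Q := norm_nonneg _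
      have e : P ^ 2 - Q ^ 2 = (P - Q) * (P + Q) := by ring
      rw [e, abs_mul, abs_of_nonneg (by positivity : 0 ≤ P + Q)]
      exact mul_le_mul a3 (by linarith) (by positivity) hε.le
    -- second difference
    have hgint : ∫ s in Ioc 0 T, ‖g s‖ ≤ W + 1 := by
      have b1 : ∀ s, ‖g s‖ ≤ ‖w s‖ + ‖w s - g s‖ := fun s => by
        have := norm_sub_norm_le (g s) (w s)
        rw [norm_sub_rev] at this
        linarith
      have b2 : ∫ s in Ioc 0 T, ‖g s‖ ≤ ∫ s in Ioc 0 T, (‖w s‖ + ‖w s - g s‖) :=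
        integral_mono hg2.norm (hw.norm.add (hw.sub hg2).norm) b1
      have b3 : Integrable (fun s => ‖w s - g s‖) (volume.restrict (Ioc 0 T)) :=
        (hw.sub hg2).norm
      rw [integral_add hw.norm b3] at b2
      linarith
    have hwD : IntegrableOn (fun s => ⟪w s, D s⟫) (Ioc 0 t) := by
      refine Integrable.mono' ((hw.mono_set (hsub t ht)).norm.mul_const M)
        ((hw.mono_set (hsub t ht)).aestronglyMeasurable.inner
          ((hDc.mono (Ioc_subset_Icc_self.trans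
            (Icc_subset_Icc_right ht.2))).aestronglyMeasurable measurableSet_Ioc)) ?_
      refine (ae_restrict_iff' measurableSet_Ioc).2 (ae_of_all _ fun s hs => ?_)
      exact (norm_inner_le_norm _ _).trans (mul_le_mul_of_nonneg_left
        (hDM s ⟨hs.1.le, hs.2.trans ht.2⟩) (norm_nonneg _))
    have hgD : IntegrableOn (fun s => ⟪g s, D0 + ∫ r in (0 : ℝ)..s, g r⟫) (Ioc 0 t) :=
      ((hgc.inner hJc).intervalIntegrable 0 t).1
    have h2 : |(∫ s in (0 : ℝ)..t, ⟪w s, D s⟫) -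
        ∫ s in (0 : ℝ)..t, ⟪g s, D0 + ∫ r in (0 : ℝ)..s, g r⟫| ≤ ε * (M + W + 1) := by
      rw [intervalIntegral.integral_of_le ht0, intervalIntegral.integral_of_le ht0,
        ← integral_sub hwD hgD]
      have c1 : ∀ s ∈ Ioc 0 t, ‖⟪w s, D s⟫ - ⟪g s, D0 + ∫ r in (0 : ℝ)..s, g r⟫‖ ≤
          ‖w s - g s‖ * M + ‖g s‖ * ε := by
        intro s hs
        have hs' : s ∈ Icc 0 T := ⟨hs.1.le, hs.2.trans ht.2⟩
        have e : ⟪w s, D s⟫ - ⟪g s, D0 + ∫ r in (0 : ℝ)..s, g r⟫ =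
            ⟪w s - g s, D s⟫ + ⟪g s, D s - (D0 + ∫ r in (0 : ℝ)..s, g r)⟫ := by
          rw [inner_sub_left, inner_sub_right]; ring
        rw [e]
        refine (norm_add_le _ _).trans (add_le_add ?_ ?_)
        · exact (norm_inner_le_norm _ _).trans (mul_le_mul_of_nonneg_left
            (hDM s hs') (norm_nonneg _))
        · exact (norm_inner_le_norm _ _).trans (mul_le_mul_of_nonneg_left
            (hJ s hs') (norm_nonneg _))
      rw [← Real.norm_eq_abs]
      refine (norm_integral_le_integral_norm _).trans ?_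
      have i1 : IntegrableOn (fun s => ‖w s - g s‖ * M) (Ioc 0 T) :=
        (hw.sub hg2).norm.mul_const M
      have i2 : IntegrableOn (fun s => ‖g s‖ * ε) (Ioc 0 T) := hg2.norm.mul_const ε
      have c2 : ∫ s in Ioc 0 t, ‖⟪w s, D s⟫ - ⟪g s, D0 + ∫ r in (0 : ℝ)..s, g r⟫‖ ≤
          ∫ s in Ioc 0 t, (‖w s - g s‖ * M + ‖g s‖ * ε) :=
        setIntegral_mono_on (hwD.sub hgD).norm ((i1.add i2).mono_set (hsub t ht))
          measurableSet_Ioc c1
      have c3 : ∫ s in Ioc 0 t, (‖w s - g s‖ * M + ‖g s‖ * ε) ≤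
          ∫ s in Ioc 0 T, (‖w s - g s‖ * M + ‖g s‖ * ε) :=
        setIntegral_mono_set (i1.add i2)
          (ae_of_all _ fun s => by positivity) (hsub t ht).eventuallyLE
      have c4 : ∫ s in Ioc 0 T, (‖w s - g s‖ * M + ‖g s‖ * ε) =
          (∫ s in Ioc 0 T, ‖w s - g s‖) * M + (∫ s in Ioc 0 T, ‖g s‖) * ε := by
        rw [integral_add i1 i2, integral_mul_const, integral_mul_const]
      rw [c4] at c3
      have c5 : (∫ s in Ioc 0 T, ‖w s - g s‖) * M ≤ ε * M :=
        mul_le_mul_of_nonneg_right hg1 hM0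
      have c6 : (∫ s in Ioc 0 T, ‖g s‖) * ε ≤ (W + 1) * ε :=
        mul_le_mul_of_nonneg_right hgint hε.le
      linarith
    rw [abs_le] at h1 h2 ⊢
    constructor <;> nlinarith [h1.1, h1.2, h2.1, h2.2, hG]
  -- conclusion
  have hK : 0 ≤ 4 * M + 2 * W + 3 := by positivity
  have h0 : |‖D t‖ ^ 2 - (‖D0‖ ^ 2 + 2 * ∫ s in (0 : ℝ)..t, ⟪w s, D s⟫)| ≤ 0 := by
    refine le_of_forall_pos_le_add fun δ hδ => ?_
    rw [zero_add]
    set K := 4 * M + 2 * W + 3 with hKdef
    have hK1 : 0 < K := by rw [hKdef]; positivity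
    refine (key (min 1 (δ / K)) (lt_min one_pos (by positivity)) (min_le_left _ _)).trans ?_
    calc min 1 (δ / K) * K ≤ δ / K * K := by gcongr; exact min_le_right _ _
      _ = δ := by field_simp
  have h1 := abs_nonpos_iff.1 h0
  linarith

/-- `|D|' ≤ ψ` in integrated form -/
theorem norm_primitive_le {T : ℝ} (hT : 0 ≤ T) {w D : ℝ → X} {D0 : X} {ψ : ℝ → ℝ}
    (hw : IntegrableOn w (Ioc 0 T)) (hψ : IntegrableOn ψ (Ioc 0 T)) (hψ0 : ∀ t, 0 ≤ ψ t)
    (hD : ∀ t ∈ Icc 0 T, D t = D0 + ∫ s in (0 : ℝ)..t, w s)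
    (H : ∀ᵐ t ∂(volume.restrict (Ioc 0 T)), ⟪w t, D t⟫ ≤ ψ t * ‖D t‖) :
    ∀ t ∈ Icc 0 T, ‖D t‖ ≤ ‖D0‖ + ∫ s in (0 : ℝ)..t, ψ s := by
  have hsub : ∀ s ∈ Icc 0 T, Ioc 0 s ⊆ Ioc 0 T := fun s hs => Ioc_subset_Ioc_right hs.2
  have hDc : ContinuousOn D (Icc 0 T) := (continuousOn_prim hT D0 hw).congr hD
  have hsq := sq_primitive hT hw hD
  -- strict comparison
  have key : ∀ ε : ℝ, 0 < ε → ∀ t ∈ Icc 0 T, ‖D t‖ < (‖D0‖ + ε) + ∫ s in (0 : ℝ)..t, ψ s := by
    intro ε hε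
    set R : ℝ → ℝ := fun t => (‖D0‖ + ε) + ∫ s in (0 : ℝ)..t, ψ s with hR
    have hRc : ContinuousOn R (Icc 0 T) := continuousOn_prim hT (‖D0‖ + ε) hψ
    have hRsq := sq_primitive (X := ℝ) hT (w := ψ) (D := R) (D0 := ‖D0‖ + ε) hψ
      (fun t _ => rfl)
    by_contra hcon
    push Not at hcon
    obtain ⟨t1, ht1, hbad⟩ := hcon
    set S : Set ℝ := {t | t ∈ Icc 0 T ∧ R t - ‖D t‖ ≤ 0} with hS
    have hScl : IsClosed S := by
      have : ContinuousOn (fun t => R t - ‖D t‖) (Icc 0 T) := hRc.sub hDc.norm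
      have h := this.preimage_isClosed_of_isClosed isClosed_Icc (isClosed_Iic (a := (0 : ℝ)))
      exact h
    have hSne : S.Nonempty := ⟨t1, ht1, by simp only [hR]; linarith⟩
    have hSbd : BddBelow S := ⟨0, fun t ht => ht.1.1⟩
    set τ := sInf S with hτ
    have hτS : τ ∈ S := hScl.csInf_mem hSne hSbd
    have hτI := hτS.1
    have hbelow : ∀ s, 0 ≤ s → s < τ → ‖D s‖ < R s := by
      intro s hs0 hs
      by_contra hns
      push Not at hns
      have : s ∈ S := ⟨⟨hs0, hs.le.trans hτI.2⟩, by linarith⟩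
      exact absurd (csInf_le hSbd this) (not_le.2 hs)
    have hRpos : 0 ≤ R τ := by
      simp only [hR]
      have : 0 ≤ ∫ s in (0 : ℝ)..τ, ψ s :=
        intervalIntegral.integral_nonneg hτI.1 fun s _ => hψ0 s
      positivity
    have e1 := hsq τ hτI
    have e2 := hRsq τ hτI
    rw [Real.norm_of_nonneg hRpos, Real.norm_of_nonneg (by positivity : 0 ≤ ‖D0‖ + ε)] at e2
    -- integrability of the two integrands
    have hbd : ∃ M, ∀ s ∈ Icc 0 T, ‖D s‖ ≤ M := by
      obtain ⟨M, hM⟩ := isCompact_Icc.exists_bound_of_continuousOn hDc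
      exact ⟨M, hM⟩
    obtain ⟨M, hM⟩ := hbd
    have hbd' : ∃ M, ∀ s ∈ Icc 0 T, ‖R s‖ ≤ M :=
      isCompact_Icc.exists_bound_of_continuousOn hRc
    obtain ⟨M', hM'⟩ := hbd'
    have hsubτ : Ioc 0 τ ⊆ Icc 0 T := fun s hs => ⟨hs.1.le, hs.2.trans hτI.2⟩
    have i1 : IntegrableOn (fun s => ⟪w s, D s⟫) (Ioc 0 τ) := by
      refine Integrable.mono' ((hw.mono_set (hsub τ hτI)).norm.mul_const M)
        ((hw.mono_set (hsub τ hτI)).aestronglyMeasurable.inner
          ((hDc.mono hsubτ).aestronglyMeasurable measurableSet_Ioc)) ?_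
      refine (ae_restrict_iff' measurableSet_Ioc).2 (ae_of_all _ fun s hs => ?_)
      exact (norm_inner_le_norm _ _).trans (mul_le_mul_of_nonneg_left
        (hM s (hsubτ hs)) (norm_nonneg _))
    have i2 : IntegrableOn (fun s => ⟪ψ s, R s⟫) (Ioc 0 τ) := by
      refine Integrable.mono' ((hψ.mono_set (hsub τ hτI)).norm.mul_const M')
        ((hψ.mono_set (hsub τ hτI)).aestronglyMeasurable.inner
          ((hRc.mono hsubτ).aestronglyMeasurable measurableSet_Ioc)) ?_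
      refine (ae_restrict_iff' measurableSet_Ioc).2 (ae_of_all _ fun s hs => ?_)
      exact (norm_inner_le_norm _ _).trans (mul_le_mul_of_nonneg_left
        (hM' s (hsubτ hs)) (norm_nonneg _))
    have hle : ∫ s in (0 : ℝ)..τ, ⟪w s, D s⟫ ≤ ∫ s in (0 : ℝ)..τ, ⟪ψ s, R s⟫ := by
      rw [intervalIntegral.integral_of_le hτI.1, intervalIntegral.integral_of_le hτI.1]
      refine integral_mono_ae i1 i2 ?_
      have hne : ∀ᵐ s ∂(volume.restrict (Ioc 0 τ)), s ≠ τ :=
        ae_restrict_of_ae (Measure.ae_ne volume τ)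
      have H' : ∀ᵐ s ∂(volume.restrict (Ioc 0 τ)), ⟪w s, D s⟫ ≤ ψ s * ‖D s‖ :=
        ae_mono (Measure.restrict_mono (hsub τ hτI) le_rfl) H
      filter_upwards [hne, H', ae_restrict_mem measurableSet_Ioc] with s h1 h2 h3
      refine h2.trans ?_
      have h4 : ‖D s‖ < R s := hbelow s h3.1.le (lt_of_le_of_ne h3.2 h1)
      have h5 : ψ s * ‖D s‖ ≤ ψ s * R s := mul_le_mul_of_nonneg_left h4.le (hψ0 s)
      have h6 : ⟪ψ s, R s⟫ = ψ s * R s := by
        rw [real_inner_eq_re_inner]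
        simp [mul_comm]
      linarith
    have hτbad : R τ ≤ ‖D τ‖ := by linarith [hτS.2]
    have hsq1 : R τ ^ 2 ≤ ‖D τ‖ ^ 2 := by gcongr
    have hsq2 : ‖D0‖ ^ 2 < (‖D0‖ + ε) ^ 2 := by
      have := norm_nonneg D0
      nlinarith
    linarith
  intro t ht
  refine le_of_forall_pos_le_add fun ε hε => ?_
  have := key ε hε t ht
  linarith

end Pool.Agent.H25.Hx2
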