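import Mathlib

/-!
# Weak limits along ultrafilters in a Hilbert space
-/

set_option autoImplicit false

open MeasureTheory Filter Topology Set
open scoped RealInnerProductSpace

namespace Pool.Agent.H25.Hx2

/-- bounded sequences have weak limits along an ultrafilter finer than `atTop` -/
theorem weak_lim {Y : Type*} [NormedAddCommGroup Y] [InnerProductSpace ℝ Y] [CompleteSpace Y]
    {y : ℕ → Y} {M : ℝ} (hy : ∀ n, ‖y n‖ ≤ M) :
    ∃ (𝒰 : Ultrafilter ℕ) (w : Y), (𝒰 : Filter ℕ) ≤ atTop ∧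
      ∀ z : Y, Tendsto (fun n => ⟪y n, z⟫) 𝒰 (𝓝 ⟪w, z⟫) := by
  have hM0 : 0 ≤ M := (norm_nonneg _).trans (hy 0)
  set 𝒰 : Ultrafilter ℕ := Ultrafilter.of atTop with h𝒰
  have hle : (𝒰 : Filter ℕ) ≤ atTop := Ultrafilter.of_le _
  have hb : ∀ z : Y, ∀ n, |⟪y n, z⟫| ≤ M * ‖z‖ := fun z n =>
    (abs_real_inner_le_norm _ _).trans (mul_le_mul_of_nonneg_right (hy n) (norm_nonneg _))
  have hlim : ∀ z : Y, ∃ l : ℝ, Tendsto (fun n => ⟪y n, z⟫) 𝒰 (𝓝 l) := by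
    intro z
    have hc : IsCompact (Icc (-(M * ‖z‖)) (M * ‖z‖)) := isCompact_Icc
    have h1 : (𝒰.map fun n => (⟪y n, z⟫ : ℝ) : Filter ℝ) ≤ 𝓟 (Icc (-(M * ‖z‖)) (M * ‖z‖)) := by
      rw [le_principal_iff]
      refine Filter.mem_map.2 (univ_mem' fun n => ?_)
      exact abs_le.1 (hb z n)
    obtain ⟨l, -, hl⟩ := isCompact_iff_ultrafilter_le_nhds.1 hc _ h1
    exact ⟨l, hl⟩
  choose ℓ hℓ using hlim
  have hadd : ∀ z z', ℓ (z + z') = ℓ z + ℓ z' := by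
    intro z z'
    refine tendsto_nhds_unique (hℓ (z + z')) (((hℓ z).add (hℓ z')).congr fun n => ?_)
    rw [inner_add_right]
  have hsmul : ∀ (c : ℝ) z, ℓ (c • z) = c * ℓ z := by
    intro c z
    refine tendsto_nhds_unique (hℓ (c • z)) (((hℓ z).const_mul c).congr fun n => ?_)
    rw [real_inner_smul_right]
  have hbd : ∀ z, |ℓ z| ≤ M * ‖z‖ := fun z => le_of_tendsto' (hℓ z).abs fun n => hb z n
  let f : Y →ₗ[ℝ] ℝ := { toFun := ℓ, map_add' := hadd, map_smul' := fun c z => hsmul c z }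
  let φ : Y →L[ℝ] ℝ := f.mkContinuous M fun z => by
    rw [Real.norm_eq_abs]
    exact hbd z
  refine ⟨𝒰, (InnerProductSpace.toDual ℝ Y).symm φ, hle, fun z => ?_⟩
  rw [InnerProductSpace.toDual_symm_apply]
  exact hℓ z

/-- weak times strong -/
theorem weak_strong {Y : Type*} [NormedAddCommGroup Y] [InnerProductSpace ℝ Y]
    {y z : ℕ → Y} {M : ℝ} (hy : ∀ n, ‖y n‖ ≤ M) {𝒰 : Filter ℕ} {w z0 : Y}
    (hw : ∀ z : Y, Tendsto (fun n => ⟪y n, z⟫) 𝒰 (𝓝 ⟪w, z⟫))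
    (hz : Tendsto z 𝒰 (𝓝 z0)) : Tendsto (fun n => ⟪y n, z n⟫) 𝒰 (𝓝 ⟪w, z0⟫) := by
  have h1 : Tendsto (fun n => ⟪y n, z n - z0⟫) 𝒰 (𝓝 0) := by
    have h2 : Tendsto (fun n => M * ‖z n - z0‖) 𝒰 (𝓝 0) := by
      have := ((tendsto_iff_norm_sub_tendsto_zero.1 hz)).const_mul M
      rwa [mul_zero] at this
    refine squeeze_zero_norm (fun n => ?_) h2
    rw [Real.norm_eq_abs]
    exact (abs_real_inner_le_norm _ _).trans
      (mul_le_mul_of_nonneg_right (hy n) (norm_nonneg _))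
  have h3 := (hw z0).add h1
  rw [add_zero] at h3
  refine h3.congr fun n => ?_
  rw [← inner_add_right]
  congr 1
  abel

end Pool.Agent.H25.Hx2
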