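import Pool.Agent.H25.Hx2.E2_Euler
import Pool.Agent.H25.Hx2.E3_Prim
import Pool.Agent.H25.Hx2.E4_Weak

/-!
# Existence of strong solutions of `U' + A U = F`, `F` Lipschitz, `U(0) ∈ D(A)`
-/

set_option autoImplicit false

open MeasureTheory Filter Topology Set
open scoped RealInnerProductSpace

namespace Pool.Agent.H25.Hx2

/-- bounded measurable functions are in `L²(0,T;X)` -/
theorem e5_mem {X : Type*} [NormedAddCommGroup X] {T C : ℝ} {f : ℝ → X} (hf : AEStronglyMeasurable f (volume.restrict (Ioc 0 T)))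
    (hb : ∀ t ∈ Ioc 0 T, ‖f t‖ ≤ C) : MemLp f 2 (volume.restrict (Ioc 0 T)) :=
  MemLp.of_bound hf C ((ae_restrict_iff' measurableSet_Ioc).2 (ae_of_all _ hb))

/-- uniform convergence implies convergence in `L²(0,T;X)` -/
theorem e5_tendsto {X : Type*} [NormedAddCommGroup X] {T : ℝ} {f : ℕ → ℝ → X} {f0 : ℝ → X}
    (hf : ∀ n, MemLp (f n) 2 (volume.restrict (Ioc 0 T)))
    (hf0 : MemLp f0 2 (volume.restrict (Ioc 0 T))) {ε : ℕ → ℝ} (hε : Tendsto ε atTop (𝓝 0))
    (hb : ∀ n, ∀ t ∈ Ioc 0 T, ‖f n t - f0 t‖ ≤ ε n) :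
    Tendsto (fun n => (hf n).toLp (f n)) atTop (𝓝 (hf0.toLp f0)) := by
  rw [tendsto_iff_norm_sub_tendsto_zero]
  set c : ℝ := measureUnivNNReal (volume.restrict (Ioc (0 : ℝ) T)) ^ ((2 : ENNReal).toReal)⁻¹
    with hc
  have h1 : ∀ n, ‖(hf n).toLp (f n) - hf0.toLp f0‖ ≤ c * |ε n| := by
    intro n
    rw [← MemLp.toLp_sub]
    refine Lp.norm_le_of_ae_bound (abs_nonneg _) ?_
    have h2 : ∀ᵐ t ∂(volume.restrict (Ioc 0 T)), t ∈ Ioc 0 T := ae_restrict_mem measurableSet_Ioc
    filter_upwards [((hf n).sub hf0).coeFn_toLp, h2] with t h3 h4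
    rw [h3, Pi.sub_apply]
    exact (hb n t h4).trans (le_abs_self _)
  refine squeeze_zero (fun n => norm_nonneg _) h1 ?_
  have h2 := hε.abs.const_mul c
  simpa using h2

theorem abs_exists {X : Type*} [NormedAddCommGroup X] [InnerProductSpace ℝ X] [CompleteSpace X]
    {A : X → X → Prop} (hA : MMono A) {x0 y0 : X} (h0 : A x0 y0) {F : ℝ → X}
    {L : ℝ} (hL : 0 ≤ L) (hF : ∀ s t, ‖F s - F t‖ ≤ L * |s - t|) {T : ℝ} (hT : 0 < T) :
    ∃ U W : ℝ → X, U 0 = x0 ∧ IntegrableOn W (Ioc 0 T) ∧
      (∀ t ∈ Icc 0 T, U t = x0 + ∫ s in (0 : ℝ)..t, W s) ∧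
      ∀ᵐ t ∂(volume.restrict (Ioc 0 T)), A (U t) (F t - W t) := by
  choose v w ρ mv mw mFρ hρ hwb hAv huv using fun n : ℕ => euler hA h0 hL hF hT n
  set M : ℝ := ‖F 0 - y0‖ + L * T with hM
  have hM0 : 0 ≤ M := by positivity
  set μ : Measure ℝ := volume.restrict (Ioc 0 T) with hμ
  set hs : ℕ → ℝ := fun n => T / (n + 1) with hhs
  have hs0 : ∀ n, 0 ≤ hs n := fun n => by simp only [hhs]; positivity
  have hsT : ∀ n, hs n ≤ T := by
    intro n
    simp only [hhs]
    refine div_le_self hT.le ?_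
    have : (0 : ℝ) ≤ n := Nat.cast_nonneg n
    linarith
  have hst : Tendsto hs atTop (𝓝 0) := by
    have := tendsto_one_div_add_atTop_nhds_zero_nat (𝕜 := ℝ)
    have h1 := this.const_mul T
    rw [mul_zero] at h1
    refine h1.congr fun n => ?_
    simp only [hhs]
    ring
  have hIoc : ∀ᵐ t ∂μ, t ∈ Ioc 0 T := ae_restrict_mem measurableSet_Ioc
  -- the functions `u n`
  set u : ℕ → ℝ → X := fun n t => x0 + ∫ s in (0 : ℝ)..t, w n s with hu
  have hwi : ∀ n, IntegrableOn (w n) (Ioc 0 T) := fun n =>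
    Measure.integrableOn_of_bounded (M := M) (by simp) (mw n).aestronglyMeasurable
      ((ae_restrict_iff' measurableSet_Ioc).2 (ae_of_all _ (hwb n)))
  have hwii : ∀ n, ∀ t ∈ Icc 0 T, IntervalIntegrable (w n) volume 0 t := fun n t ht => by
    rw [intervalIntegrable_iff_integrableOn_Ioc_of_le ht.1]
    exact (hwi n).mono_set (Ioc_subset_Ioc_right ht.2)
  have hub : ∀ n, ∀ t ∈ Icc 0 T, ‖u n t - x0‖ ≤ M * T := by
    intro n t ht
    simp only [hu, add_sub_cancel_left]
    have h1 := intervalIntegral.norm_integral_le_of_norm_le_const (C := M) (f := w n)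
      (a := 0) (b := t) (by
        intro s hs
        rw [uIoc_of_le ht.1] at hs
        exact hwb n s ⟨hs.1, hs.2.trans ht.2⟩)
    refine h1.trans ?_
    rw [sub_zero, abs_of_nonneg ht.1]
    exact mul_le_mul_of_nonneg_left ht.2 hM0
  set K : ℝ := 4 * L * M * T + 2 * M ^ 2 with hK
  have hK0 : 0 ≤ K := by positivity
  -- the Cauchy estimate
  have hcau : ∀ n m, ∀ t ∈ Icc 0 T, ‖u n t - u m t‖ ^ 2 ≤ 2 * T * K * (hs n + hs m) := by
    intro n m t ht
    have hD : ∀ t ∈ Icc 0 T, u n t - u m t = 0 + ∫ s in (0 : ℝ)..t, (w n s - w m s) := by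
      intro t ht
      simp only [hu]
      rw [intervalIntegral.integral_sub (hwii n t ht) (hwii m t ht)]
      abel
    have h1 := sq_primitive (w := fun s => w n s - w m s) (D := fun s => u n s - u m s) hT.le
      ((hwi n).sub (hwi m)) hD t ht
    rw [norm_zero] at h1
    have h2 : ∀ s ∈ Icc 0 t, 0 < s → ⟪w n s - w m s, u n s - u m s⟫ ≤ K * (hs n + hs m) := by
      intro s hs1 hs2
      have hsI : s ∈ Ioc 0 T := ⟨hs2, hs1.2.trans ht.2⟩
      have hsI' : s ∈ Icc 0 T := ⟨hs2.le, hsI.2⟩
      have a1 := hA.mono _ _ _ _ (hAv n s hsI) (hAv m s hsI)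
      have a2 := huv n s hsI
      have a3 := huv m s hsI
      have a4 : ‖F (ρ n s) - F (ρ m s)‖ ≤ L * (hs n + hs m) := by
        refine (hF _ _).trans (mul_le_mul_of_nonneg_left ?_ hL)
        have b1 := hρ n s hsI
        have b2 := hρ m s hsI
        calc |ρ n s - ρ m s| = |(ρ n s - s) - (ρ m s - s)| := by congr 1; ring
          _ ≤ |ρ n s - s| + |ρ m s - s| := abs_sub _ _
          _ ≤ _ := add_le_add b1 b2
      have a5 : ‖v n s - v m s‖ ≤ 4 * M * T := by
        have b1 := hub n s hsI'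
        have b2 := hub m s hsI'
        have b3 : v n s - v m s = (u n s - x0) - (u m s - x0) - ((u n s - v n s) -
            (u m s - v m s)) := by abel
        rw [b3]
        have b4 : ‖u n s - v n s‖ ≤ M * T :=
          a2.trans (mul_le_mul_of_nonneg_left (hsT n) hM0)
        have b5 : ‖u m s - v m s‖ ≤ M * T :=
          a3.trans (mul_le_mul_of_nonneg_left (hsT m) hM0)
        have b6 := norm_sub_le ((u n s - x0) - (u m s - x0)) ((u n s - v n s) -
            (u m s - v m s))
        have b7 := norm_sub_le (u n s - x0) (u m s - x0)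
        have b8 := norm_sub_le (u n s - v n s) (u m s - v m s)
        linarith
      have a6 : ‖w n s - w m s‖ ≤ 2 * M := by
        have b1 := hwb n s hsI
        have b2 := hwb m s hsI
        have b3 := norm_sub_le (w n s) (w m s)
        linarith
      have a7 : ‖(u n s - v n s) - (u m s - v m s)‖ ≤ M * (hs n + hs m) := by
        have b3 := norm_sub_le (u n s - v n s) (u m s - v m s)
        have b4 : M * (hs n + hs m) = M * hs n + M * hs m := by ring
        rw [b4]
        exact b3.trans (add_le_add a2 a3)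
      have e1 : F (ρ n s) - w n s - (F (ρ m s) - w m s) =
          (F (ρ n s) - F (ρ m s)) - (w n s - w m s) := by abel
      rw [e1, inner_sub_left] at a1
      have e2 : ⟪w n s - w m s, u n s - u m s⟫ = ⟪w n s - w m s, v n s - v m s⟫ +
          ⟪w n s - w m s, (u n s - v n s) - (u m s - v m s)⟫ := by
        rw [← inner_add_right]
        congr 1
        abel
      rw [e2]
      have c1 := real_inner_le_norm (F (ρ n s) - F (ρ m s)) (v n s - v m s)
      have c2 := real_inner_le_norm (w n s - w m s) ((u n s - v n s) - (u m s - v m s))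
      have c3 : ‖F (ρ n s) - F (ρ m s)‖ * ‖v n s - v m s‖ ≤
          (L * (hs n + hs m)) * (4 * M * T) :=
        mul_le_mul a4 a5 (norm_nonneg _) (mul_nonneg hL (add_nonneg (hs0 n) (hs0 m)))
      have c4 : ‖w n s - w m s‖ * ‖(u n s - v n s) - (u m s - v m s)‖ ≤
          (2 * M) * (M * (hs n + hs m)) :=
        mul_le_mul a6 a7 (norm_nonneg _) (by positivity)
      have e3 : K * (hs n + hs m) = (L * (hs n + hs m)) * (4 * M * T) +
          (2 * M) * (M * (hs n + hs m)) := by rw [hK]; ring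
      rw [e3]
      linarith
    have h3 : ∫ s in (0 : ℝ)..t, ⟪w n s - w m s, u n s - u m s⟫ ≤ T * (K * (hs n + hs m)) := by
      have h4 : ‖∫ s in (0 : ℝ)..t, ⟪w n s - w m s, u n s - u m s⟫‖ ≤ _ := le_rfl
      have h5 : ∫ s in (0 : ℝ)..t, ⟪w n s - w m s, u n s - u m s⟫ ≤
          ∫ s in (0 : ℝ)..t, K * (hs n + hs m) := by
        rw [intervalIntegral.integral_of_le ht.1, intervalIntegral.integral_of_le ht.1]
        have hsub : Ioc 0 t ⊆ Ioc 0 T := Ioc_subset_Ioc_right ht.2
        have hc : Continuous (fun _ : ℝ => K * (hs n + hs m)) := continuous_const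
        refine setIntegral_mono_on ?_ (integrableOn_const (by simp)) measurableSet_Ioc ?_
        · have mD : AEStronglyMeasurable (fun s => u n s - u m s)
              (volume.restrict (Ioc 0 t)) := by
            have cD : ContinuousOn (fun s => (0 : X) + ∫ r in (0 : ℝ)..s, (w n r - w m r))
                (Icc 0 t) := by
              refine continuousOn_const.add ?_
              have := intervalIntegral.continuousOn_primitive_interval
                (f := fun r => w n r - w m r) (a := 0) (b := t) (μ := volume) (by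
                  rw [uIcc_of_le ht.1]
                  exact (integrableOn_Icc_iff_integrableOn_Ioc).2
                    (((hwi n).sub (hwi m)).mono_set hsub))
              rwa [uIcc_of_le ht.1] at this
            have cD' : ContinuousOn (fun s => u n s - u m s) (Icc 0 t) :=
              cD.congr fun s hs => hD s ⟨hs.1, hs.2.trans ht.2⟩
            exact (cD'.mono Ioc_subset_Icc_self).aestronglyMeasurable measurableSet_Ioc
          have mW : AEStronglyMeasurable (fun s => w n s - w m s) (volume.restrict (Ioc 0 t)) :=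
            ((mw n).sub (mw m)).aestronglyMeasurable
          refine Integrable.of_bound (mW.inner mD) ((2 * M) * (2 * M * T))
            ((ae_restrict_iff' measurableSet_Ioc).2 (ae_of_all _ fun s hs => ?_))
          have hsI : s ∈ Ioc 0 T := hsub hs
          have hsI' : s ∈ Icc 0 T := ⟨hsI.1.le, hsI.2⟩
          refine (norm_inner_le_norm _ _).trans (mul_le_mul ?_ ?_ (norm_nonneg _) (by positivity))
          · have b1 := hwb n s hsI
            have b2 := hwb m s hsI
            have b3 := norm_sub_le (w n s) (w m s)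
            linarith
          · have b1 := hub n s hsI'
            have b2 := hub m s hsI'
            have b3 : u n s - u m s = (u n s - x0) - (u m s - x0) := by abel
            rw [b3]
            have b7 := norm_sub_le (u n s - x0) (u m s - x0)
            linarith
        · intro s hs
          exact h2 s ⟨hs.1.le, hs.2⟩ hs.1
      rw [intervalIntegral.integral_const, smul_eq_mul, sub_zero] at h5
      exact h5.trans (mul_le_mul_of_nonneg_right ht.2
        (mul_nonneg hK0 (add_nonneg (hs0 n) (hs0 m))))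
    rw [h1]
    have : 2 * T * K * (hs n + hs m) = 2 * (T * (K * (hs n + hs m))) := by ring
    rw [this]
    have h6 : (0 : ℝ) ^ 2 = 0 := by norm_num
    rw [h6, zero_add]
    linarith
  -- the strong limit
  have hlim : ∀ t ∈ Icc 0 T, ∃ l : X, Tendsto (fun n => u n t) atTop (𝓝 l) := by
    intro t ht
    refine cauchySeq_tendsto_of_complete ?_
    rw [Metric.cauchySeq_iff]
    intro ε hε
    have h1 : Tendsto (fun n => 4 * T * K * hs n) atTop (𝓝 0) := by
      have := hst.const_mul (4 * T * K)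
      rwa [mul_zero] at this
    have h2 := (tendsto_order.1 h1).2 (ε ^ 2) (by positivity)
    obtain ⟨n0, hn0⟩ := eventually_atTop.1 h2
    refine ⟨n0, fun n hn m hm => ?_⟩
    rw [dist_eq_norm]
    have h3 := hcau n m t ht
    have h4 := hn0 n hn
    have h5 := hn0 m hm
    refine lt_of_pow_lt_pow_left₀ 2 hε.le (lt_of_le_of_lt h3 ?_)
    have : 2 * T * K * (hs n + hs m) = (4 * T * K * hs n + 4 * T * K * hs m) / 2 := by ring
    rw [this]
    linarith
  -- the weak limit of the derivatives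
  have mwL : ∀ n, MemLp (w n) 2 μ := fun n => e5_mem (mw n).aestronglyMeasurable (hwb n)
  set y : ℕ → Lp X 2 μ := fun n => (mwL n).toLp (w n) with hy
  set cT : ℝ := measureUnivNNReal μ ^ ((2 : ENNReal).toReal)⁻¹ with hcT
  have hyb : ∀ n, ‖y n‖ ≤ cT * M := by
    intro n
    refine Lp.norm_le_of_ae_bound hM0 ?_
    filter_upwards [(mwL n).coeFn_toLp, hIoc] with t h3 h4
    rw [h3]
    exact hwb n t h4
  obtain ⟨𝒰, Wl, h𝒰, hW⟩ := weak_lim hyb
  have hWi : IntegrableOn (Wl : ℝ → X) (Ioc 0 T) := (Lp.memLp Wl).integrable (by norm_num)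
  set U : ℝ → X := fun t => x0 + ∫ s in (0 : ℝ)..t, Wl s with hU
  have hUlim : ∀ t ∈ Icc 0 T, Tendsto (fun n => u n t) atTop (𝓝 (U t)) := by
    intro t ht
    obtain ⟨l, hl⟩ := hlim t ht
    have h1 : l = U t := by
      refine ext_inner_left ℝ fun e => ?_
      have h2 : Tendsto (fun n => ⟪e, u n t⟫) 𝒰 (𝓝 ⟪e, l⟫) :=
        (tendsto_const_nhds.inner hl).mono_left h𝒰
      have h3 : Tendsto (fun n => ⟪e, u n t⟫) 𝒰 (𝓝 ⟪e, U t⟫) := by
        have hst : μ (Ioc 0 t) ≠ ⊤ := by
          refine ((Measure.restrict_apply_le _ _).trans_lt ?_).ne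
          simp
        have h4 := hW (indicatorConstLp 2 measurableSet_Ioc hst e)
        have h5 : ∀ f : Lp X 2 μ, ⟪f, indicatorConstLp 2 measurableSet_Ioc hst e⟫ =
            ⟪e, ∫ s in (0 : ℝ)..t, f s⟫ := by
          intro f
          rw [real_inner_comm, L2.inner_indicatorConstLp_eq_inner_setIntegral,
            intervalIntegral.integral_of_le ht.1]
          have h6 : ∀ k : ℝ → X, ∫ s in Ioc 0 t, k s ∂μ = ∫ s in Ioc 0 t, k s := by
            intro k
            rw [hμ, Measure.restrict_restrict measurableSet_Ioc,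
              inter_eq_left.2 (Ioc_subset_Ioc_right ht.2)]
          rw [h6]
        rw [h5] at h4
        have h6 : ∀ n, ⟪y n, indicatorConstLp 2 measurableSet_Ioc hst e⟫ =
            ⟪e, ∫ s in (0 : ℝ)..t, w n s⟫ := by
          intro n
          rw [h5]
          congr 1
          refine intervalIntegral.integral_congr_ae ?_
          have h7 := (ae_restrict_iff' measurableSet_Ioc).1 (mwL n).coeFn_toLp
          filter_upwards [h7] with s h8 h9
          rw [uIoc_of_le ht.1] at h9
          exact h8 ⟨h9.1, h9.2.trans ht.2⟩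
        simp only [h6] at h4
        have h8 := (tendsto_const_nhds (x := ⟪e, x0⟫) (f := (𝒰 : Filter ℕ))).add h4
        simp only [← inner_add_right] at h8
        exact h8
      exact tendsto_nhds_unique h2 h3
    rwa [← h1]
  -- quantitative form
  have hUq : ∀ n, ∀ t ∈ Icc 0 T, ‖u n t - U t‖ ≤ Real.sqrt (2 * T * K * hs n) := by
    intro n t ht
    have h1 : Tendsto (fun m => ‖u n t - u m t‖ ^ 2) atTop (𝓝 (‖u n t - U t‖ ^ 2)) :=
      ((tendsto_const_nhds.sub (hUlim t ht)).norm).pow 2
    have h2 : Tendsto (fun m => 2 * T * K * (hs n + hs m)) atTop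
        (𝓝 (2 * T * K * (hs n + 0))) := (tendsto_const_nhds.add hst).const_mul _
    have h3 := le_of_tendsto_of_tendsto' h1 h2 fun m => hcau n m t ht
    rw [add_zero] at h3
    exact Real.le_sqrt_of_sq_le h3
  set ε : ℕ → ℝ := fun n => M * hs n + Real.sqrt (2 * T * K * hs n) with hε
  have hεt : Tendsto ε atTop (𝓝 0) := by
    have h1 := hst.const_mul M
    have h2 : Tendsto (fun n => Real.sqrt (2 * T * K * hs n)) atTop
        (𝓝 (Real.sqrt (2 * T * K * 0))) := (hst.const_mul _).sqrt
    rw [mul_zero, Real.sqrt_zero] at h2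
    have h3 := h1.add h2
    rwa [mul_zero, add_zero] at h3
  have hvU : ∀ n, ∀ t ∈ Ioc 0 T, ‖v n t - U t‖ ≤ ε n := by
    intro n t ht
    have h1 := huv n t ht
    have h2 := hUq n t ⟨ht.1.le, ht.2⟩
    have h3 : v n t - U t = (u n t - U t) - (u n t - v n t) := by abel
    rw [h3]
    have h4 := norm_sub_le (u n t - U t) (u n t - v n t)
    simp only [hε]
    linarith
  -- measurability and boundedness
  have cF : Continuous F := by
    have : LipschitzWith ⟨L, hL⟩ F := LipschitzWith.of_dist_le_mul fun s t => by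
      rw [dist_eq_norm, Real.dist_eq]
      exact hF s t
    exact this.continuous
  have cU : ContinuousOn U (Icc 0 T) := by
    refine continuousOn_const.add ?_
    have := intervalIntegral.continuousOn_primitive_interval
      (f := (Wl : ℝ → X)) (a := 0) (b := T) (μ := volume) (by
        rw [uIcc_of_le hT.le]
        exact (integrableOn_Icc_iff_integrableOn_Ioc).2 hWi)
    rwa [uIcc_of_le hT.le] at this
  have mU : AEStronglyMeasurable U μ :=
    (cU.mono Ioc_subset_Icc_self).aestronglyMeasurable measurableSet_Ioc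
  have bU : ∀ t ∈ Ioc 0 T, ‖U t‖ ≤ ‖x0‖ + M * T := by
    intro t ht
    have ht' : t ∈ Icc 0 T := ⟨ht.1.le, ht.2⟩
    refine le_of_tendsto' (hUlim t ht').norm fun n => ?_
    have h1 := hub n t ht'
    have h2 : u n t = x0 + (u n t - x0) := by abel
    rw [h2]
    exact (norm_add_le _ _).trans (by linarith)
  have bF : ∀ t ∈ Ioc 0 T, ‖F t‖ ≤ ‖F 0‖ + L * T := by
    intro t ht
    have h1 := hF t 0
    rw [sub_zero, abs_of_pos ht.1] at h1
    have h2 : F t = F 0 + (F t - F 0) := by abel
    rw [h2]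
    have h3 := mul_le_mul_of_nonneg_left ht.2 hL
    exact (norm_add_le _ _).trans (by linarith)
  have LU : MemLp U 2 μ := e5_mem mU bU
  have LF : MemLp F 2 μ := e5_mem cF.aestronglyMeasurable bF
  have Lv : ∀ n, MemLp (v n) 2 μ := fun n =>
    e5_mem (C := ‖x0‖ + M * T + |ε n|) (mv n).aestronglyMeasurable fun t ht => by
      have h1 := hvU n t ht
      have h2 := bU t ht
      have h3 : v n t = U t + (v n t - U t) := by abel
      rw [h3]
      have h4 := norm_add_le (U t) (v n t - U t)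
      have h5 := le_abs_self (ε n)
      linarith
  have LFρ : ∀ n, MemLp (fun t => F (ρ n t)) 2 μ := fun n =>
    e5_mem (C := ‖F 0‖ + L * T + L * T) (mFρ n).aestronglyMeasurable fun t ht => by
      have h1 := bF t ht
      have h2 := hF (ρ n t) t
      have h3 := mul_le_mul_of_nonneg_left ((hρ n t ht).trans (hsT n)) hL
      have h4 : F (ρ n t) = F t + (F (ρ n t) - F t) := by abel
      rw [h4]
      have h5 := norm_add_le (F t) (F (ρ n t) - F t)
      linarith
  -- the comparison function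
  have cres : Continuous (res hA one_pos) := by
    have : LipschitzWith 1 (res hA one_pos) := LipschitzWith.of_dist_le_mul fun s t => by
      rw [dist_eq_norm, dist_eq_norm, NNReal.coe_one, one_mul]
      exact res_lip hA one_pos s t
    exact this.continuous
  set V : ℝ → X := fun t => res hA one_pos (U t + (F t - Wl t)) with hV
  have LUFW : MemLp (fun t => U t + (F t - Wl t)) 2 μ := LU.add (LF.sub (Lp.memLp Wl))
  have LV : MemLp V 2 μ := by
    have h1 : MemLp (fun t => V t - res hA one_pos 0) 2 μ := by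
      refine LUFW.of_le ?_ (ae_of_all _ fun t => ?_)
      · exact (cres.comp_aestronglyMeasurable LUFW.1).sub aestronglyMeasurable_const
      · have := res_lip hA one_pos (U t + (F t - Wl t)) 0
        rwa [sub_zero] at this
    have h2 : MemLp (fun _ : ℝ => res hA one_pos 0) 2 μ := memLp_const _
    have h3 := h1.add h2
    refine h3.ae_eq (ae_of_all _ fun t => ?_)
    simp
  -- limits in `L²(0,T;X)`
  have tv : Tendsto (fun n => (Lv n).toLp (v n)) atTop (𝓝 (LU.toLp U)) :=
    e5_tendsto Lv LU hεt hvU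
  have tF : Tendsto (fun n => (LFρ n).toLp (fun t => F (ρ n t))) atTop (𝓝 (LF.toLp F)) := by
    refine e5_tendsto LFρ LF (ε := fun n => L * hs n) (by
      have := hst.const_mul L
      rwa [mul_zero] at this) fun n t ht => ?_
    exact (hF _ _).trans (mul_le_mul_of_nonneg_left (hρ n t ht) hL)
  set Ul := LU.toLp U with hUl
  set Fl := LF.toLp F with hFl
  set Vl := LV.toLp V with hVl
  set Vn : ℕ → Lp X 2 μ := fun n => (Lv n).toLp (v n) with hVn
  set Fn : ℕ → Lp X 2 μ := fun n => (LFρ n).toLp (fun t => F (ρ n t)) with hFn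
  have hpos : ∀ n, 0 ≤ ⟪(Fn n - Ul - Fl + Wl + Vl) - y n, Vn n - Vl⟫ := by
    intro n
    rw [L2.inner_def]
    refine integral_nonneg_of_ae ?_
    filter_upwards [hIoc, (Lv n).coeFn_toLp, (LFρ n).coeFn_toLp, LU.coeFn_toLp, LF.coeFn_toLp,
      LV.coeFn_toLp, (mwL n).coeFn_toLp, Lp.coeFn_sub (Fn n - Ul - Fl + Wl + Vl) (y n),
      Lp.coeFn_sub (Vn n) Vl, Lp.coeFn_add (Fn n - Ul - Fl + Wl) Vl,
      Lp.coeFn_add (Fn n - Ul - Fl) Wl, Lp.coeFn_sub (Fn n - Ul) Fl, Lp.coeFn_sub (Fn n) Ul]
      with t ht b1 b2 b3 b4 b5 b6 c1 c2 c3 c4 c5 c6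
    simp only [Pi.zero_apply]
    rw [c1, c2, Pi.sub_apply, Pi.sub_apply, c3, Pi.add_apply, c4, Pi.add_apply, c5, Pi.sub_apply,
      c6, Pi.sub_apply, b1, b2, b3, b4, b5, b6]
    have d1 := hA.mono _ _ _ _ (hAv n t ht) (res_one hA (U t + (F t - Wl t)))
    have d2 : F (ρ n t) - U t - F t + Wl t + V t - w n t =
        F (ρ n t) - w n t - (U t + (F t - Wl t) - V t) := by abel
    rw [d2]
    exact d1
  have ha : Tendsto (fun n => Fn n - Ul - Fl + Wl + Vl) 𝒰
      (𝓝 (Fl - Ul - Fl + Wl + Vl)) :=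
    ((((tF.mono_left h𝒰).sub_const Ul).sub_const Fl).add_const Wl).add_const Vl
  have hb : Tendsto (fun n => Vn n - Vl) 𝒰 (𝓝 (Ul - Vl)) := (tv.mono_left h𝒰).sub_const Vl
  have hlim2 : Tendsto (fun n => ⟪(Fn n - Ul - Fl + Wl + Vl) - y n, Vn n - Vl⟫) 𝒰
      (𝓝 (⟪Fl - Ul - Fl + Wl + Vl, Ul - Vl⟫ - ⟪Wl, Ul - Vl⟫)) := by
    have h1 := ha.inner (𝕜 := ℝ) hb
    have h2 := weak_strong hyb hW hb
    refine (h1.sub h2).congr fun n => ?_
    rw [← inner_sub_left]
  have hfin : 0 ≤ ⟪Fl - Ul - Fl + Wl + Vl, Ul - Vl⟫ - ⟪Wl, Ul - Vl⟫ :=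
    ge_of_tendsto' hlim2 hpos
  have hUV : Ul = Vl := by
    have h1 : ⟪Fl - Ul - Fl + Wl + Vl, Ul - Vl⟫ - ⟪Wl, Ul - Vl⟫ = -‖Ul - Vl‖ ^ 2 := by
      rw [← inner_sub_left]
      have h2 : Fl - Ul - Fl + Wl + Vl - Wl = -(Ul - Vl) := by abel
      rw [h2, inner_neg_left, real_inner_self_eq_norm_sq]
    rw [h1] at hfin
    have h3 : ‖Ul - Vl‖ = 0 := by
      have h4 := sq_nonneg ‖Ul - Vl‖
      exact pow_eq_zero_iff (two_ne_zero) |>.1 (by linarith)
    exact sub_eq_zero.1 (norm_eq_zero.1 h3)
  have hae : U =ᵐ[μ] V := by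
    have h1 := LU.coeFn_toLp
    have h2 := LV.coeFn_toLp
    rw [← hUl, hUV] at h1
    exact h1.symm.trans h2
  refine ⟨U, Wl, by simp [hU], hWi, fun t _ => rfl, ?_⟩
  filter_upwards [hae] with t ht
  exact A_of_res hA ht.symm

end Pool.Agent.H25.Hx2
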