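import Pool.Agent.H25.HX.ExistC

/-! # The resolvent equation with right side in `H⁻¹` -/

set_option autoImplicit false

open MeasureTheory Filter Topology
open scoped RealInnerProductSpace

namespace Pool.Agent.H25.HX

variable {N : ℕ} {Ω : Set (E N)}

/-- the functional with a right side in `H⁻¹` -/
noncomputable def JK (p c h : ℝ) (R : E N → ℝ) (K : E N → E N) (v : E N → ℝ)
    (V : E N → E N) : ℝ := JJ p c h R v V - ∫ x, ⟪K x, V x⟫

theorem inner_int2 {a b : E N → E N} (ha : MemLp a 2 volume) (hb : MemLp b 2 volume) :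
    Integrable (fun x => (⟪a x, b x⟫ : ℝ)) volume := by
  have := ha.norm.integrable_mul hb.norm
  refine this.mono (ha.1.inner hb.1) (ae_of_all _ fun x => ?_)
  rw [Real.norm_eq_abs, Pi.mul_apply, norm_mul, norm_norm, norm_norm]
  exact abs_real_inner_le_norm _ _

theorem JK_mid {p c h : ℝ} (hp : 2 < p) (hc : 0 ≤ c) {R v w : E N → ℝ} {K V W : E N → E N}
    (hR : MemLp R 2 volume) (hK : MemLp K 2 volume) (hv : Adm Ω p v V) (hw : Adm Ω p w W) :
    JK p c h R K (fun x => (1 / 2 : ℝ) * (v x + w x)) (fun x => (1 / 2 : ℝ) • (V x + W x)) ≤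
      1 / 2 * JK p c h R K v V + 1 / 2 * JK p c h R K w W -
        1 / 8 * (∫ x, ‖v x - w x‖ ^ 2) - h ^ 2 / 8 * (∫ x, ‖V x - W x‖ ^ 2) := by
  have h1 := JJ_mid (h := h) hp hc hR hv hw
  have i1 := inner_int2 hK hv.1.2.1
  have i2 := inner_int2 hK hw.1.2.1
  have e1 : ∫ x, (⟪K x, (1 / 2 : ℝ) • (V x + W x)⟫ : ℝ) =
      1 / 2 * (∫ x, ⟪K x, V x⟫) + 1 / 2 * ∫ x, ⟪K x, W x⟫ := by
    rw [← integral_const_mul, ← integral_const_mul,
      ← integral_add (i1.const_mul _) (i2.const_mul _)]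
    refine integral_congr_ae (ae_of_all _ fun x => ?_)
    simp only [real_inner_smul_right, inner_add_right]
    ring
  simp only [JK]
  rw [e1]
  linarith

theorem JK_lower {p c h : ℝ} (hp : 2 < p) (hc : 0 ≤ c) (hh : 0 < h) {R v : E N → ℝ}
    {K V : E N → E N} (hR : MemLp R 2 volume) (hK : MemLp K 2 volume) (hv : Adm Ω p v V) :
    -(1 / 2 * (∫ x, R x ^ 2) + 1 / (2 * h ^ 2) * ∫ x, ‖K x‖ ^ 2) ≤ JK p c h R K v V := by
  have h1 : ∫ x, R x * v x ≤ ∫ x, (1 / 2 * R x ^ 2 + 1 / 2 * v x ^ 2) := by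
    apply integral_mono (mul_int hR hv.1.1)
      (((sq_int hR).const_mul _).add ((sq_int hv.1.1).const_mul _))
    intro x
    simp only [Pi.add_apply]
    nlinarith [sq_nonneg (R x - v x)]
  rw [integral_add ((sq_int hR).const_mul _) ((sq_int hv.1.1).const_mul _), integral_const_mul,
    integral_const_mul] at h1
  have k1 := sq_norm_integrable hK
  have k2 := sq_norm_integrable hv.1.2.1
  have h4 : ∫ x, (⟪K x, V x⟫ : ℝ) ≤
      ∫ x, (1 / (2 * h ^ 2) * ‖K x‖ ^ 2 + h ^ 2 / 2 * ‖V x‖ ^ 2) := by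
    apply integral_mono (inner_int2 hK hv.1.2.1) ((k1.const_mul _).add (k2.const_mul _))
    intro x
    simp only [Pi.add_apply]
    have h5 := real_inner_le_norm (K x) (V x)
    have h6 : ‖K x‖ * ‖V x‖ ≤ 1 / (2 * h ^ 2) * ‖K x‖ ^ 2 + h ^ 2 / 2 * ‖V x‖ ^ 2 := by
      have h7 : 0 ≤ (‖K x‖ / h - h * ‖V x‖) ^ 2 := sq_nonneg _
      have h8 : (‖K x‖ / h - h * ‖V x‖) ^ 2 =
          2 * (1 / (2 * h ^ 2) * ‖K x‖ ^ 2 + h ^ 2 / 2 * ‖V x‖ ^ 2) - 2 * (‖K x‖ * ‖V x‖) := by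
        field_simp
        ring
      linarith
    exact h5.trans h6
  rw [integral_add (k1.const_mul _) (k2.const_mul _), integral_const_mul,
    integral_const_mul] at h4
  have h2 : 0 ≤ c / p * (∫ x, |v x| ^ p) :=
    mul_nonneg (div_nonneg hc (by linarith))
      (integral_nonneg fun x => Real.rpow_nonneg (abs_nonneg _) _)
  simp only [JK, JJ]
  linarith

/-- existence of a minimiser -/
theorem JK_min {p c h : ℝ} (hp : 2 < p) (hc : 0 < c) (hh : 0 < h) {R : E N → ℝ}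
    {K : E N → E N} (hR : MemLp R 2 volume) (hK : MemLp K 2 volume) :
    ∃ (v : E N → ℝ) (V : E N → E N), Adm Ω p v V ∧
      ∀ (w : E N → ℝ) (W : E N → E N), Adm Ω p w W → JK p c h R K v V ≤ JK p c h R K w W := by
  set S : Set ℝ := {t | ∃ (w : E N → ℝ) (W : E N → E N), Adm Ω p w W ∧ t = JK p c h R K w W}
    with hS
  have hne : S.Nonempty := ⟨_, _, _, Adm.zero hp, rfl⟩
  have hbd : BddBelow S := by
    refine ⟨-(1 / 2 * (∫ x, R x ^ 2) + 1 / (2 * h ^ 2) * ∫ x, ‖K x‖ ^ 2), ?_⟩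
    rintro t ⟨w, W, hw, rfl⟩
    exact JK_lower hp hc.le hh hR hK hw
  set m := sInf S with hm
  have hmle : ∀ (w : E N → ℝ) (W : E N → E N), Adm Ω p w W → m ≤ JK p c h R K w W :=
    fun w W hw => csInf_le hbd ⟨w, W, hw, rfl⟩
  have hseq : ∀ n : ℕ, ∃ (w : E N → ℝ) (W : E N → E N), Adm Ω p w W ∧
      JK p c h R K w W < m + 1 / ((n : ℝ) + 1) := by
    intro n
    have h1 : m < m + 1 / ((n : ℝ) + 1) := by
      have : 0 < 1 / ((n : ℝ) + 1) := by positivity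
      linarith
    obtain ⟨t, ⟨w, W, hw, rfl⟩, ht⟩ := exists_lt_of_csInf_lt hne h1
    exact ⟨w, W, hw, ht⟩
  choose w W hw hJ using hseq
  have hpar : ∀ n k : ℕ, (∫ x, ‖w n x - w k x‖ ^ 2) + h ^ 2 * (∫ x, ‖W n x - W k x‖ ^ 2) ≤
      4 * (1 / ((n : ℝ) + 1) + 1 / ((k : ℝ) + 1)) := by
    intro n k
    have h1 := JK_mid (h := h) hp hc.le hR hK (hw n) (hw k)
    have h2 := hmle _ _ ((hw n).mid hp (hw k))
    have h3 := hJ n
    have h4 := hJ k
    linarith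
  have hcau : ∀ ε : ℝ, 0 < ε → ∃ n0 : ℕ, ∀ n ≥ n0, ∀ k ≥ n0,
      4 * (1 / ((n : ℝ) + 1) + 1 / ((k : ℝ) + 1)) ≤ ε := by
    intro ε hε
    obtain ⟨n0, h0⟩ := exists_nat_one_div_lt (show (0 : ℝ) < ε / 8 by positivity)
    refine ⟨n0, fun n hn k hk => ?_⟩
    have h1 : ∀ j : ℕ, n0 ≤ j → 1 / ((j : ℝ) + 1) ≤ 1 / ((n0 : ℝ) + 1) := fun j hj =>
      Nat.one_div_le_one_div hj
    have h2 := h1 n hn
    have h3 := h1 k hk
    linarith
  obtain ⟨v, hv, hvl⟩ := L2_complete (fun n => (hw n).1.1) (fun ε hε => by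
    obtain ⟨n0, h0⟩ := hcau ε hε
    refine ⟨n0, fun n hn k hk => ?_⟩
    have h1 := hpar n k
    have h2 : 0 ≤ h ^ 2 * (∫ x, ‖W n x - W k x‖ ^ 2) :=
      mul_nonneg (sq_nonneg _) (integral_nonneg fun x => by positivity)
    linarith [h0 n hn k hk])
  obtain ⟨V, hV, hVl⟩ := L2_complete (fun n => (hw n).1.2.1) (fun ε hε => by
    obtain ⟨n0, h0⟩ := hcau (h ^ 2 * ε) (by positivity)
    refine ⟨n0, fun n hn k hk => ?_⟩
    have h1 := hpar n k
    have h2 : 0 ≤ (∫ x, ‖w n x - w k x‖ ^ 2) := integral_nonneg fun x => by positivity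
    have h3 : h ^ 2 * (∫ x, ‖W n x - W k x‖ ^ 2) ≤ h ^ 2 * ε := by linarith [h0 n hn k hk]
    exact le_of_mul_le_mul_left h3 (by positivity))
  have hH : H10 Ω v V := by
    apply H10.closed hv hV
    intro δ hδ
    have h4 := (hvl.eventually (ge_mem_nhds hδ)).and (hVl.eventually (ge_mem_nhds hδ))
    obtain ⟨n, h5, h6⟩ := h4.exists
    refine ⟨w n, W n, (hw n).1, ?_, h6⟩
    simpa [Real.norm_eq_abs, sq_abs] using h5
  obtain ⟨ns, hns, hae⟩ := ae_subseq hv (fun n => (hw n).1.1) hvl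
  have e0 : ∀ f : E N → ℝ, ∫ x, f x ^ 2 = ∫ x, ⟪f x, f x⟫ := fun f =>
    integral_congr_ae (ae_of_all _ fun x => by simp [sq])
  have l1 : Tendsto (fun n => ∫ x, w n x ^ 2) atTop (𝓝 (∫ x, v x ^ 2)) := by
    simp only [e0]
    exact tendsto_int_inner hv hv (fun n => (hw n).1.1) (fun n => (hw n).1.1) hvl hvl
  have l2 : Tendsto (fun n => ∫ x, ‖W n x‖ ^ 2) atTop (𝓝 (∫ x, ‖V x‖ ^ 2)) := by
    have := tendsto_int_inner hV hV (fun n => (hw n).1.2.1) (fun n => (hw n).1.2.1) hVl hVl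
    simpa only [real_inner_self_eq_norm_sq] using this
  have l3 : Tendsto (fun n => ∫ x, R x * w n x) atTop (𝓝 (∫ x, R x * v x)) := by
    have := tendsto_int_inner hR hv (b := fun _ => R) (fun _ => hR) (fun n => (hw n).1.1)
      (by simp) hvl
    have e1 : ∀ f : E N → ℝ, ∫ x, ⟪R x, f x⟫ = ∫ x, R x * f x := fun f =>
      integral_congr_ae (ae_of_all _ fun x => by simp [mul_comm])
    simpa only [e1] using this
  have l3' : Tendsto (fun n => ∫ x, (⟪K x, W n x⟫ : ℝ)) atTop (𝓝 (∫ x, ⟪K x, V x⟫)) :=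
    tendsto_int_inner hK hV (b := fun _ => K) (fun _ => hK) (fun n => (hw n).1.2.1)
      (by simp) hVl
  have hcp : 0 < c / p := div_pos hc (by linarith)
  -- the limit of the `p`-integrals is controlled
  set rest : ℝ := 1 / 2 * (∫ x, v x ^ 2) + h ^ 2 / 2 * (∫ x, ‖V x‖ ^ 2) - (∫ x, R x * v x) -
    ∫ x, ⟪K x, V x⟫ with hrest
  have l4 : Tendsto (fun n : ℕ => (m + 1 / ((n : ℝ) + 1)) - (1 / 2 * (∫ x, w n x ^ 2) +
      h ^ 2 / 2 * (∫ x, ‖W n x‖ ^ 2) - (∫ x, R x * w n x) - ∫ x, ⟪K x, W n x⟫)) atTop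
      (𝓝 (m + 0 - rest)) := by
    refine (tendsto_const_nhds.add tendsto_one_div_add_atTop_nhds_zero_nat).sub ?_
    exact (((l1.const_mul _).add (l2.const_mul _)).sub l3).sub l3'
  have hfat : ∀ δ : ℝ, 0 < δ → Integrable (fun x => |v x| ^ p) volume ∧
      ∫ x, |v x| ^ p ≤ (m - rest + δ) / (c / p) := by
    intro δ hδ
    have h1 : ∀ᶠ n : ℕ in atTop, (m + 1 / ((n : ℝ) + 1)) - (1 / 2 * (∫ x, w n x ^ 2) +
      h ^ 2 / 2 * (∫ x, ‖W n x‖ ^ 2) - (∫ x, R x * w n x) - ∫ x, ⟪K x, W n x⟫) ≤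
        m - rest + δ := by
      apply l4.eventually (ge_mem_nhds _)
      linarith
    obtain ⟨n0, h0⟩ := eventually_atTop.1 h1
    have hae' : ∀ᵐ x, Tendsto (fun i => |w (ns (i + n0)) x| ^ p) atTop (𝓝 (|v x| ^ p)) := by
      filter_upwards [hae] with x hx
      have h2 : Tendsto (fun i => w (ns (i + n0)) x) atTop (𝓝 (v x)) :=
        hx.comp (tendsto_add_atTop_nat n0)
      exact ((abs_rpow_continuous (by linarith : 0 ≤ p)).tendsto (v x)).comp h2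
    refine fatou_real (F := fun i x => |w (ns (i + n0)) x| ^ p) (fun i => (hw _).2)
      (fun i x => Real.rpow_nonneg (abs_nonneg _) _) (meas_abs_rpow (by linarith) hv.1) hae' ?_
    intro i
    rw [le_div_iff₀ hcp]
    have h2 := h0 (ns (i + n0)) ((by omega : n0 ≤ i + n0).trans (hns.id_le _))
    have h3 := hJ (ns (i + n0))
    simp only [JK, JJ] at h3
    linarith
  have hA : Adm Ω p v V := ⟨hH, (hfat 1 one_pos).1⟩
  refine ⟨v, V, hA, fun w' W' hw' => ?_⟩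
  refine le_trans ?_ (hmle w' W' hw')
  apply le_of_forall_pos_le_add
  intro δ hδ
  have h1 := (hfat δ hδ).2
  rw [le_div_iff₀ hcp] at h1
  simp only [JK, JJ]
  linarith

theorem ELK_t {p c h : ℝ} (hp : 2 < p) (hc : 0 ≤ c) {R v z : E N → ℝ} {K V Z : E N → E N}
    (hR : MemLp R 2 volume) (hK : MemLp K 2 volume) (hv : Adm Ω p v V)
    (hmin : ∀ (w : E N → ℝ) (W : E N → E N), Adm Ω p w W → JK p c h R K v V ≤ JK p c h R K w W)
    (hz : Adm Ω p z Z) {t : ℝ} (ht : 0 < t) (ht1 : t ≤ 1) :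
    0 ≤ (∫ x, v x * z x) + c * (∫ x, g p (v x + t * z x) * z x) +
      h ^ 2 * (∫ x, ⟪V x, Z x⟫) - (∫ x, R x * z x) - (∫ x, ⟪K x, Z x⟫) +
        t / 2 * ((∫ x, z x ^ 2) + h ^ 2 * ∫ x, ‖Z x‖ ^ 2) := by
  have hw : Adm Ω p (fun x => v x + t * z x) (fun x => V x + t • Z x) :=
    hv.add hp (hz.smul hp t)
  have h0 := hmin _ _ hw
  have i1 := sq_int hv.1.1
  have i2 := mul_int hv.1.1 hz.1.1
  have i3 := sq_int hz.1.1
  have e1 : ∫ x, (v x + t * z x) ^ 2 =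
      (∫ x, v x ^ 2) + 2 * t * (∫ x, v x * z x) + t ^ 2 * ∫ x, z x ^ 2 := by
    have h1 := int_lin3 i1 i2 i3 1 (2 * t) (-t ^ 2)
    have h2 : ∫ x, (v x + t * z x) ^ 2 =
        ∫ x, (1 * v x ^ 2 + 2 * t * (v x * z x) - -t ^ 2 * z x ^ 2) :=
      integral_congr_ae (ae_of_all _ fun x => by ring)
    rw [h2, h1]
    ring
  have j1 := sq_norm_integrable hv.1.2.1
  have j2 : Integrable (fun x => (⟪V x, Z x⟫ : ℝ)) volume := inner_int2 hv.1.2.1 hz.1.2.1
  have j3 := sq_norm_integrable hz.1.2.1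
  have e2 : ∫ x, ‖V x + t • Z x‖ ^ 2 =
      (∫ x, ‖V x‖ ^ 2) + 2 * t * (∫ x, (⟪V x, Z x⟫ : ℝ)) + t ^ 2 * ∫ x, ‖Z x‖ ^ 2 := by
    have h1 := int_lin3 j1 j2 j3 1 (2 * t) (-t ^ 2)
    have h2 : ∫ x, ‖V x + t • Z x‖ ^ 2 =
        ∫ x, (1 * ‖V x‖ ^ 2 + 2 * t * (⟪V x, Z x⟫ : ℝ) - -t ^ 2 * ‖Z x‖ ^ 2) := by
      refine integral_congr_ae (ae_of_all _ fun x => ?_)
      simp only
      rw [norm_add_sq_real, norm_smul, mul_pow, Real.norm_eq_abs, sq_abs, real_inner_smul_right]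
      ring
    rw [h2, h1]
    ring
  have k1 := mul_int hR hv.1.1
  have k2 := mul_int hR hz.1.1
  have e3 : ∫ x, R x * (v x + t * z x) = (∫ x, R x * v x) + t * ∫ x, R x * z x := by
    rw [← integral_const_mul, ← integral_add k1 (k2.const_mul t)]
    exact integral_congr_ae (ae_of_all _ fun x => by ring)
  have k3 := inner_int2 hK hv.1.2.1
  have k4 := inner_int2 hK hz.1.2.1
  have e6 : ∫ x, (⟪K x, V x + t • Z x⟫ : ℝ) = (∫ x, ⟪K x, V x⟫) + t * ∫ x, ⟪K x, Z x⟫ := by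
    rw [← integral_const_mul, ← integral_add k3 (k4.const_mul t)]
    refine integral_congr_ae (ae_of_all _ fun x => ?_)
    simp only [inner_add_right, real_inner_smul_right]
  have l1 := gz_int hp ht.le ht1 hv hz
  have e4 : (∫ x, |v x + t * z x| ^ p) - ∫ x, |v x| ^ p ≤
      p * t * ∫ x, g p (v x + t * z x) * z x := by
    rw [← integral_sub hw.2 hv.2, ← integral_const_mul]
    apply integral_mono (hw.2.sub hv.2) (l1.const_mul _)
    intro x
    have := rpow_sub_le hp (v x + t * z x) (v x)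
    simp only [Pi.sub_apply]
    refine this.trans (le_of_eq ?_)
    ring
  have hp0 : 0 < p := by linarith
  have e5 : c / p * (∫ x, |v x + t * z x| ^ p) - c / p * (∫ x, |v x| ^ p) ≤
      c * t * ∫ x, g p (v x + t * z x) * z x := by
    have h1 := mul_le_mul_of_nonneg_left e4 (div_nonneg hc hp0.le)
    have h2 : c / p * (p * t * ∫ x, g p (v x + t * z x) * z x) =
        c * t * ∫ x, g p (v x + t * z x) * z x := by
      field_simp
    rw [h2] at h1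
    linarith
  simp only [JK, JJ] at h0
  rw [e1, e2, e3, e6] at h0
  have h3 : 0 ≤ t * ((∫ x, v x * z x) + c * (∫ x, g p (v x + t * z x) * z x) +
      h ^ 2 * (∫ x, ⟪V x, Z x⟫) - (∫ x, R x * z x) - (∫ x, ⟪K x, Z x⟫) +
        t / 2 * ((∫ x, z x ^ 2) + h ^ 2 * ∫ x, ‖Z x‖ ^ 2)) := by
    nlinarith
  exact nonneg_of_mul_nonneg_right h3 ht

theorem ELK_ineq {p c h : ℝ} (hp : 2 < p) (hc : 0 ≤ c) {R v z : E N → ℝ} {K V Z : E N → E N}
    (hR : MemLp R 2 volume) (hK : MemLp K 2 volume) (hv : Adm Ω p v V)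
    (hmin : ∀ (w : E N → ℝ) (W : E N → E N), Adm Ω p w W → JK p c h R K v V ≤ JK p c h R K w W)
    (hz : Adm Ω p z Z) :
    0 ≤ (∫ x, v x * z x) + c * (∫ x, g p (v x) * z x) +
      h ^ 2 * (∫ x, ⟪V x, Z x⟫) - (∫ x, R x * z x) - ∫ x, ⟪K x, Z x⟫ := by
  have ht : ∀ n : ℕ, (0 : ℝ) < 1 / ((n : ℝ) + 1) := fun n => by positivity
  have ht1 : ∀ n : ℕ, (1 : ℝ) / ((n : ℝ) + 1) ≤ 1 := fun n => by
    rw [div_le_one (by positivity)]
    have : (0 : ℝ) ≤ n := Nat.cast_nonneg n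
    linarith
  have h1 := fun n : ℕ => ELK_t hp hc hR hK hv hmin hz (ht n) (ht1 n)
  have h2 : Tendsto (fun n : ℕ => ∫ x, g p (v x + 1 / ((n : ℝ) + 1) * z x) * z x) atTop
      (𝓝 (∫ x, g p (v x) * z x)) := by
    apply tendsto_integral_of_dominated_convergence
      (fun x => (2 : ℝ) ^ (p - 1) * (|v x| ^ p + |z x| ^ p))
    · exact fun n => (gz_int hp (ht n).le (ht1 n) hv hz).1
    · exact (hv.2.add hz.2).const_mul _
    · exact fun n => ae_of_all _ fun x => g_bound hp (ht n).le (ht1 n) (v x) (z x)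
    · refine ae_of_all _ fun x => ?_
      have h3 : Tendsto (fun n : ℕ => v x + 1 / ((n : ℝ) + 1) * z x) atTop
          (𝓝 (v x + 0 * z x)) :=
        tendsto_const_nhds.add (tendsto_one_div_add_atTop_nhds_zero_nat.mul_const _)
      rw [zero_mul, add_zero] at h3
      exact (((g_continuous hp).tendsto _).comp h3).mul_const _
  have h3 : Tendsto (fun n : ℕ => (∫ x, v x * z x) +
      c * (∫ x, g p (v x + 1 / ((n : ℝ) + 1) * z x) * z x) +
      h ^ 2 * (∫ x, ⟪V x, Z x⟫) - (∫ x, R x * z x) - (∫ x, ⟪K x, Z x⟫) +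
        1 / ((n : ℝ) + 1) / 2 * ((∫ x, z x ^ 2) + h ^ 2 * ∫ x, ‖Z x‖ ^ 2)) atTop
      (𝓝 ((∫ x, v x * z x) + c * (∫ x, g p (v x) * z x) +
      h ^ 2 * (∫ x, ⟪V x, Z x⟫) - (∫ x, R x * z x) - (∫ x, ⟪K x, Z x⟫) +
        0 / 2 * ((∫ x, z x ^ 2) + h ^ 2 * ∫ x, ‖Z x‖ ^ 2))) := by
    refine Tendsto.add ?_ ?_
    · exact (((tendsto_const_nhds.add (h2.const_mul c)).add tendsto_const_nhds).sub
        tendsto_const_nhds).sub tendsto_const_nhds
    · exact (tendsto_one_div_add_atTop_nhds_zero_nat.div_const 2).mul_const _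
  have h4 := ge_of_tendsto' h3 h1
  simpa using h4

/-- the resolvent equation with right side `R - div K` -/
theorem one_step_gen {p c h : ℝ} (hp : 2 < p) (hc : 0 < c) (hh : 0 < h) {R : E N → ℝ}
    {K : E N → E N} (hR : MemLp R 2 volume) (hK : MemLp K 2 volume) :
    ∃ (v : E N → ℝ) (V : E N → E N), Adm Ω p v V ∧
      ∀ (z : E N → ℝ) (Z : E N → E N), Adm Ω p z Z →
        (∫ x, v x * z x) + c * (∫ x, g p (v x) * z x) + h ^ 2 * (∫ x, ⟪V x, Z x⟫) =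
          (∫ x, R x * z x) + ∫ x, ⟪K x, Z x⟫ := by
  obtain ⟨v, V, hv, hmin⟩ := JK_min (Ω := Ω) hp hc hh hR hK
  refine ⟨v, V, hv, fun z Z hz => ?_⟩
  have h1 := ELK_ineq hp hc.le hR hK hv hmin hz
  have h2 := ELK_ineq hp hc.le hR hK hv hmin (hz.smul hp (-1))
  have e1 : ∀ f : E N → ℝ, ∫ x, f x * (-1 * z x) = -∫ x, f x * z x := fun f => by
    rw [← integral_neg]
    exact integral_congr_ae (ae_of_all _ fun x => by ring)
  have e2 : ∀ f : E N → E N, ∫ x, (⟪f x, (-1 : ℝ) • Z x⟫ : ℝ) = -∫ x, ⟪f x, Z x⟫ := fun f => by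
    rw [← integral_neg]
    exact integral_congr_ae (ae_of_all _ fun x => by simp)
  rw [e1, e1, e1, e2, e2] at h2
  linarith

end Pool.Agent.H25.HX
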